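import Pool.Agent.Lib.MP_492a9e_co.Two.Base

section
/-!
# Disjoint branchings with root sets, for up-sets (proof of Lovasz)
-/
open Finset

namespace Wood2

set_option linter.unusedSectionVars false

variable {V A C : Type} [Fintype V] [DecidableEq V] [DecidableEq A] [Fintype C] [DecidableEq C]

/-- nonempty up-sets avoiding `Rt` -/
def Fam (r : V → V → Prop) (Rt : Finset V) (U : Finset V) : Prop :=
  U.Nonempty ∧ Up r U ∧ Disjoint U Rt

/-- the number of colours whose root set misses `U` -/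
def num (R : C → Finset V) (U : Finset V) : ℕ := (univ.filter fun c => Disjoint U (R c)).card

theorem Fam.inter {r : V → V → Prop} {Rt U W : Finset V} (hU : Fam r Rt U) (hW : Fam r Rt W)
    (h : (U ∩ W).Nonempty) : Fam r Rt (U ∩ W) :=
  ⟨h, hU.2.1.inter hW.2.1, disjoint_of_subset_left inter_subset_left hU.2.2⟩

theorem Fam.union {r : V → V → Prop} {Rt U W : Finset V} (hU : Fam r Rt U) (hW : Fam r Rt W) :
    Fam r Rt (U ∪ W) :=
  ⟨hU.1.mono subset_union_left, hU.2.1.union hW.2.1, disjoint_union_left.2 ⟨hU.2.2, hW.2.2⟩⟩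

theorem num_super (R : C → Finset V) (U W : Finset V) :
    num R U + num R W ≤ num R (U ∩ W) + num R (U ∪ W) := by
  simp only [num, card_filter]
  rw [← sum_add_distrib, ← sum_add_distrib]
  refine sum_le_sum fun c _ => ?_
  have h1 : Disjoint U (R c) → Disjoint (U ∩ W) (R c) :=
    fun h => disjoint_of_subset_left inter_subset_left h
  have h2 : Disjoint W (R c) → Disjoint (U ∩ W) (R c) :=
    fun h => disjoint_of_subset_left inter_subset_right h
  have h3 : Disjoint (U ∪ W) (R c) ↔ Disjoint U (R c) ∧ Disjoint W (R c) := disjoint_union_left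
  by_cases a : Disjoint U (R c) <;> by_cases b : Disjoint W (R c) <;> simp_all

theorem num_super_lt (R : C → Finset V) (U W : Finset V) {c : C} (hU : ¬ Disjoint U (R c))
    (hW : ¬ Disjoint W (R c)) (h : Disjoint (U ∩ W) (R c)) :
    num R U + num R W < num R (U ∩ W) + num R (U ∪ W) := by
  simp only [num, card_filter]
  rw [← sum_add_distrib, ← sum_add_distrib]
  refine sum_lt_sum (fun c _ => ?_) ⟨c, mem_univ _, ?_⟩
  · have h1 : Disjoint U (R c) → Disjoint (U ∩ W) (R c) :=
      fun h => disjoint_of_subset_left inter_subset_left h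
    have h2 : Disjoint W (R c) → Disjoint (U ∩ W) (R c) :=
      fun h => disjoint_of_subset_left inter_subset_right h
    have h3 : Disjoint (U ∪ W) (R c) ↔ Disjoint U (R c) ∧ Disjoint W (R c) := disjoint_union_left
    by_cases a : Disjoint U (R c) <;> by_cases b : Disjoint W (R c) <;> simp_all
  · have h3 : ¬ Disjoint (U ∪ W) (R c) := fun h4 => hU (disjoint_union_left.1 h4).1
    simp [hU, hW, h, h3]

/-- the arc to be added -/
theorem exists_arc {r : V → V → Prop} {Rt : Finset V} {tl hd : A → V} {S : Finset A}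
    {R : C → Finset V} (hS : ∀ e ∈ S, r (tl e) (hd e)) (hR : ∀ c, Dn r (R c)) (hRt : ∀ c, Rt ⊆ R c)
    (hf : ∀ U, Fam r Rt U → num R U ≤ (ent tl hd S U).card) {c : C} (hc : R c ≠ univ) :
    ∃ e ∈ S, tl e ∈ R c ∧ hd e ∉ R c ∧ ∀ U, Fam r Rt U → num R U = (ent tl hd S U).card →
      ¬ Disjoint U (R c) → hd e ∈ U → tl e ∉ U → False := by
  classical
  let Tt : Finset V → Prop := fun U => Fam r Rt U ∧ num R U = (ent tl hd S U).card ∧
    ¬ Disjoint U (R c) ∧ ¬ U ⊆ R c
  by_cases hex : ∃ U, Tt U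
  · obtain ⟨W, hW, hmin⟩ := exists_min_image (univ.filter Tt) card (by
      obtain ⟨U, hU⟩ := hex
      exact ⟨U, mem_filter.2 ⟨mem_univ _, hU⟩⟩)
    obtain ⟨-, hWF, hWt, hWd, hWs⟩ := mem_filter.1 hW
    have hne : (W \ R c).Nonempty := sdiff_nonempty.2 hWs
    have hF' : Fam r Rt (W \ R c) := ⟨hne, hWF.2.1.sdiff (hR c),
      disjoint_of_subset_left sdiff_subset hWF.2.2⟩
    have hlt : num R W < num R (W \ R c) := by
      refine card_lt_card ?_
      rw [ssubset_iff_of_subset]
      · exact ⟨c, mem_filter.2 ⟨mem_univ _, sdiff_disjoint⟩, fun h => hWd (mem_filter.1 h).2⟩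
      · intro d hd
        rw [mem_filter] at hd ⊢
        exact ⟨mem_univ _, disjoint_of_subset_left sdiff_subset hd.2⟩
    have hlt2 : (ent tl hd S W).card < (ent tl hd S (W \ R c)).card := by
      rw [← hWt]
      exact lt_of_lt_of_le hlt (hf _ hF')
    obtain ⟨e, he, heW⟩ := exists_mem_notMem_of_card_lt_card hlt2
    rw [mem_ent, mem_sdiff, mem_sdiff] at he
    rw [mem_ent] at heW
    have htW : tl e ∈ W := by
      by_contra h
      exact heW ⟨he.1, h, he.2.2.1⟩
    have htR : tl e ∈ R c := by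
      by_contra h
      exact he.2.1 ⟨htW, h⟩
    refine ⟨e, he.1, htR, he.2.2.2, ?_⟩
    intro U hU hUt hUd hxU haU
    have hne2 : (U ∩ W).Nonempty := ⟨hd e, mem_inter.2 ⟨hxU, he.2.2.1⟩⟩
    have hI := hU.inter hWF hne2
    have hUn := hU.union hWF
    have m := ent_modular (tl := tl) (hd := hd) hS hU.2.1 hWF.2.1
    have f1 := hf _ hI
    have f2 := hf _ hUn
    by_cases hd0 : Disjoint (U ∩ W) (R c)
    · have := num_super_lt R U W hUd hWd hd0
      omega
    · have hs := num_super R U W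
      have ht : num R (U ∩ W) = (ent tl hd S (U ∩ W)).card := by omega
      have hmem : U ∩ W ∈ univ.filter Tt := by
        refine mem_filter.2 ⟨mem_univ _, hI, ht, hd0, fun h => ?_⟩
        exact he.2.2.2 (h (mem_inter.2 ⟨hxU, he.2.2.1⟩))
      have h1 := hmin _ hmem
      have h2 : (U ∩ W).card < W.card := by
        refine card_lt_card ?_
        rw [ssubset_iff_of_subset inter_subset_right]
        exact ⟨tl e, htW, fun h => haU (mem_inter.1 h).1⟩
      omega
  · have hF' : Fam r Rt (univ \ R c) := by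
      refine ⟨?_, ?_, ?_⟩
      · rw [sdiff_nonempty]
        intro h
        exact hc (univ_subset_iff.1 h)
      · exact Up.sdiff (fun _ _ _ _ => mem_univ _) (hR c)
      · exact disjoint_of_subset_right (hRt c) sdiff_disjoint
    have h1 : 0 < num R (univ \ R c) :=
      card_pos.2 ⟨c, mem_filter.2 ⟨mem_univ _, sdiff_disjoint⟩⟩
    obtain ⟨e, he⟩ := card_pos.1 (lt_of_lt_of_le h1 (hf _ hF'))
    rw [mem_ent, mem_sdiff, mem_sdiff] at he
    have htR : tl e ∈ R c := by
      by_contra h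
      exact he.2.1 ⟨mem_univ _, h⟩
    refine ⟨e, he.1, htR, he.2.2.2, ?_⟩
    intro U hU hUt hUd hxU _
    exact hex ⟨U, hU, hUt, hUd, fun h => he.2.2.2 (h hxU)⟩

/-- **disjoint branchings** for up-sets -/
theorem edmonds {r : V → V → Prop} (hrefl : ∀ v, r v v) (htr : ∀ u v w, r u v → r v w → r u w)
    {Rt : Finset V} {tl hd : A → V} [Nonempty C] :
    ∀ (n : ℕ) (S : Finset A) (R : C → Finset V), S.card = n → (∀ e ∈ S, r (tl e) (hd e)) →
    (∀ c, Dn r (R c)) → (∀ c, Rt ⊆ R c) →
    (∀ U, Fam r Rt U → num R U ≤ (ent tl hd S U).card) →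
    ∃ f : A → C, ∀ c U, Fam r Rt U → Disjoint U (R c) → ∃ e ∈ S, f e = c ∧ tl e ∉ U ∧ hd e ∈ U := by
  classical
  intro n
  induction n with
  | zero =>
    intro S R hn hS hR hRt hf
    refine ⟨fun _ => Classical.arbitrary C, fun c U hU hd0 => ?_⟩
    exfalso
    have h1 : 0 < num R U := card_pos.2 ⟨c, mem_filter.2 ⟨mem_univ _, hd0⟩⟩
    have h2 := hf U hU
    rw [card_eq_zero] at hn
    rw [hn] at h2
    simp [ent] at h2
    omega
  | succ n ih =>
    intro S R hn hS hR hRt hf
    by_cases hall : ∀ c, R c = univ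
    · refine ⟨fun _ => Classical.arbitrary C, fun c U hU hd0 => ?_⟩
      rw [hall c] at hd0
      obtain ⟨v, hv⟩ := hU.1
      exact absurd (mem_univ v) (Finset.disjoint_left.1 hd0 hv)
    · push Not at hall
      obtain ⟨c, hc⟩ := hall
      obtain ⟨e, heS, heR, hxR, hno⟩ := exists_arc hS hR hRt hf hc
      let R' : C → Finset V := Function.update R c (R c ∪ univ.filter fun v => r v (hd e))
      have hRR' : ∀ d, R d ⊆ R' d := by
        intro d
        by_cases h : d = c
        · subst h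
          simp only [R', Function.update_self]
          exact subset_union_left
        · simp only [R', Function.update_of_ne h]
          exact Subset.refl _
      have hxR' : hd e ∈ R' c := by
        simp only [R', Function.update_self]
        exact mem_union_right _ (mem_filter.2 ⟨mem_univ _, hrefl _⟩)
      obtain ⟨f, hfc⟩ := ih (S.erase e) R' (by rw [card_erase_of_mem heS, hn]; rfl)
        (fun e' he' => hS e' (mem_of_mem_erase he')) (by
          intro d
          by_cases h : d = c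
          · subst h
            simp only [R', Function.update_self]
            intro u hu v hvu
            rw [mem_union, mem_filter] at hu ⊢
            rcases hu with hu | hu
            · exact Or.inl (hR _ u hu v hvu)
            · exact Or.inr ⟨mem_univ _, htr _ _ _ hvu hu.2⟩
          · simp only [R', Function.update_of_ne h]
            exact hR d)
        (fun d => (hRt d).trans (hRR' d)) (by
          intro U hU
          have hmono : num R' U ≤ num R U := by
            refine card_le_card fun d hd' => ?_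
            rw [mem_filter] at hd' ⊢
            exact ⟨mem_univ _, disjoint_of_subset_right (hRR' d) hd'.2⟩
          have h0 := hf U hU
          by_cases hen : tl e ∉ U ∧ hd e ∈ U
          · have hcard : (ent tl hd (S.erase e) U).card + 1 = (ent tl hd S U).card := by
              have : ent tl hd (S.erase e) U = (ent tl hd S U).erase e := by
                ext x
                simp only [mem_ent, mem_erase]
                tauto
              rw [this, card_erase_add_one]
              exact mem_ent.2 ⟨heS, hen⟩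
            have hnd : ¬ Disjoint U (R' c) :=
              fun h => Finset.disjoint_left.1 h hen.2 hxR'
            by_cases hdis : Disjoint U (R c)
            · have : num R' U < num R U := by
                refine card_lt_card ?_
                rw [ssubset_iff_of_subset]
                · exact ⟨c, mem_filter.2 ⟨mem_univ _, hdis⟩, fun h => hnd (mem_filter.1 h).2⟩
                · intro d hd'
                  rw [mem_filter] at hd' ⊢
                  exact ⟨mem_univ _, disjoint_of_subset_right (hRR' d) hd'.2⟩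
              omega
            · have : num R U ≠ (ent tl hd S U).card :=
                fun h => hno U hU h hdis hen.2 hen.1
              omega
          · have hcard : ent tl hd (S.erase e) U = ent tl hd S U := by
              ext x
              simp only [mem_ent, mem_erase]
              constructor
              · rintro ⟨⟨_, h1⟩, h2⟩
                exact ⟨h1, h2⟩
              · rintro ⟨h1, h2⟩
                refine ⟨⟨?_, h1⟩, h2⟩
                rintro rfl
                exact hen h2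
            rw [hcard]
            omega)
      refine ⟨Function.update f e c, fun d U hU hdis => ?_⟩
      by_cases h : Disjoint U (R' d)
      · obtain ⟨e', he', h1, h2⟩ := hfc d U hU h
        rw [mem_erase] at he'
        exact ⟨e', he'.2, by rw [Function.update_of_ne he'.1]; exact h1, h2⟩
      · have hdc : d = c := by
          by_contra hne
          apply h
          simp only [R', Function.update_of_ne hne]
          exact hdis
        subst hdc
        refine ⟨e, heS, Function.update_self _ _ _, ?_, ?_⟩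
        · exact fun h1 => Finset.disjoint_left.1 hdis h1 heR
        · rw [Finset.not_disjoint_iff] at h
          obtain ⟨v, hvU, hv⟩ := h
          simp only [R', Function.update_self, mem_union, mem_filter, mem_univ, true_and] at hv
          rcases hv with hv | hv
          · exact absurd hv (Finset.disjoint_left.1 hdis hvU)
          · exact hU.2.1 v hvU _ hv

end Wood2
end

section
/-!
# Two colours: the union of two matchings is bipartite
-/
open Finset

namespace Wood2

set_option linter.unusedSectionVars false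

variable {V A : Type} [Fintype V] [DecidableEq V] [Fintype A] [DecidableEq A]

/-- valid colouring for an involution -/
def Val (σ : A → A) (g : A → Bool) : Prop := ∀ e, σ e ≠ e → g (σ e) ≠ g e

/-- exchange the colours of `x` and `σ x` -/
def flp (σ : A → A) (g : A → Bool) (x : A) : A → Bool := fun e => if e = x ∨ e = σ x then !(g e) else g e

theorem exists_val (σ : A → A) (hσ : ∀ e, σ (σ e) = e) : ∃ g, Val σ g := by
  classical
  refine ⟨fun e => decide (Fintype.equivFin A e < Fintype.equivFin A (σ e)), fun e he => ?_⟩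
  have hne : Fintype.equivFin A (σ e) ≠ Fintype.equivFin A e := fun h => he ((Fintype.equivFin A).injective h)
  simp only [hσ]
  rcases lt_or_gt_of_ne hne with h | h
  · simp [h, not_lt.2 h.le]
  · simp [h, not_lt.2 h.le]

theorem Val.flp {σ : A → A} (hσ : ∀ e, σ (σ e) = e) {g : A → Bool} (hg : Val σ g) (x : A) :
    Val σ (flp σ g x) := by
  intro e he
  have h := hg e he
  have h1 : σ e = x ↔ e = σ x := ⟨fun h => by rw [← h, hσ], fun h => by rw [h, hσ]⟩
  have h2 : σ e = σ x ↔ e = x := ⟨fun h => by rw [← hσ e, h, hσ], fun h => by rw [h]⟩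
  unfold Wood2.flp
  by_cases a : e = x
  · rw [if_pos (Or.inl a), if_pos (Or.inr (h2.2 a))]
    simpa using h
  · by_cases b : e = σ x
    · rw [if_pos (Or.inr b), if_pos (Or.inl (h1.2 b))]
      simpa using h
    · rw [if_neg (by tauto), if_neg (by tauto)]
      exact h

theorem flp_self (σ : A → A) (g : A → Bool) (x : A) : flp σ g x x = !(g x) := by
  simp [flp]

theorem flp_ne (σ : A → A) (g : A → Bool) {x y : A} (h1 : y ≠ x) (h2 : y ≠ σ x) :
    flp σ g x y = g y := by
  simp [flp, h1, h2]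

/-- two matchings, the second one consisting of at most two pairs -/
theorem comb {σ : A → A} (hσ : ∀ e, σ (σ e) = e) (O1 O2 : Finset A) (hd : Disjoint O1 O2) :
    ∃ g, Val σ g ∧ (2 ≤ O1.card → ∃ p ∈ O1, ∃ p' ∈ O1, g p ≠ g p') ∧
      (2 ≤ O2.card → ∃ p ∈ O2, ∃ p' ∈ O2, g p ≠ g p') := by
  classical
  have step1 : ∃ g, Val σ g ∧ (2 ≤ O1.card → ∃ p ∈ O1, ∃ p' ∈ O1, g p ≠ g p') := by
    obtain ⟨g, hg⟩ := exists_val σ hσ
    by_cases h2 : 2 ≤ O1.card
    · obtain ⟨p, hp, p', hp', hne⟩ := one_lt_card.1 h2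
      by_cases h : g p = g p'
      · refine ⟨flp σ g p, hg.flp hσ p, fun _ => ⟨p, hp, p', hp', ?_⟩⟩
        have h3 : p' ≠ σ p := by
          intro h4
          have h5 : σ p ≠ p := fun h6 => hne (by rw [h4, h6])
          exact hg p h5 (by rw [← h4, h])
        rw [flp_self, flp_ne σ g hne.symm h3, h]
        simp
      · exact ⟨g, hg, fun _ => ⟨p, hp, p', hp', h⟩⟩
    · exact ⟨g, hg, fun h => absurd h h2⟩
  obtain ⟨g, hg, h1⟩ := step1
  by_cases h2 : 2 ≤ O2.card
  swap
  · exact ⟨g, hg, h1, fun h => absurd h h2⟩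
  by_cases hex : ∃ p ∈ O2, ∃ p' ∈ O2, g p ≠ g p'
  · exact ⟨g, hg, h1, fun _ => hex⟩
  push Not at hex
  obtain ⟨q, hq, q', hq', hne⟩ := one_lt_card.1 h2
  have hqq : g q = g q' := hex q hq q' hq'
  -- flipping an element of `O2` separates `q`, `q'`
  have sep : ∀ a b, a ∈ O2 → b ∈ O2 → a ≠ b → flp σ g a a ≠ flp σ g a b := by
    intro a b ha hb hab
    have hgab := hex a ha b hb
    have h3 : b ≠ σ a := by
      intro h4
      have h5 : σ a ≠ a := fun h6 => hab (by rw [h4, h6])
      exact hg a h5 (by rw [← h4, hgab])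
    rw [flp_self, flp_ne σ g hab.symm h3, hgab]
    simp
  by_cases h1c : 2 ≤ O1.card
  swap
  · exact ⟨flp σ g q, hg.flp hσ q, fun h => absurd h h1c, fun _ => ⟨q, hq, q', hq', sep q q' hq hq' hne⟩⟩
  obtain ⟨p, hp, p', hp', hpp⟩ := h1 h1c
  have dj : ∀ a ∈ O1, ∀ b ∈ O2, a ≠ b := fun a ha b hb h =>
    Finset.disjoint_left.1 hd ha (h ▸ hb)
  by_cases hA : p ≠ σ q ∧ p' ≠ σ q
  · refine ⟨flp σ g q, hg.flp hσ q, fun _ => ⟨p, hp, p', hp', ?_⟩,
      fun _ => ⟨q, hq, q', hq', sep q q' hq hq' hne⟩⟩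
    rw [flp_ne σ g (dj p hp q hq) hA.1, flp_ne σ g (dj p' hp' q hq) hA.2]
    exact hpp
  by_cases hB : p ≠ σ q' ∧ p' ≠ σ q'
  · refine ⟨flp σ g q', hg.flp hσ q', fun _ => ⟨p, hp, p', hp', ?_⟩,
      fun _ => ⟨q', hq', q, hq, sep q' q hq' hq hne.symm⟩⟩
    rw [flp_ne σ g (dj p hp q' hq') hB.1, flp_ne σ g (dj p' hp' q' hq') hB.2]
    exact hpp
  exfalso
  have inj : ∀ a b, σ a = σ b → a = b := fun a b h => by rw [← hσ a, h, hσ]
  have e1 : g (σ q) ≠ g q := by
    apply hg
    intro h
    rw [h] at hA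
    exact hA ⟨dj p hp q hq, dj p' hp' q hq⟩
  have e2 : g (σ q') ≠ g q' := by
    apply hg
    intro h
    rw [h] at hB
    exact hB ⟨dj p hp q' hq', dj p' hp' q' hq'⟩
  have e3 : g (σ q) = g (σ q') := by
    revert e1 e2
    rw [hqq]
    cases g (σ q) <;> cases g (σ q') <;> cases g q' <;> simp
  rw [not_and_or, not_not, not_not] at hA hB
  rcases hA with hA | hA <;> rcases hB with hB | hB
  · exact hne (inj _ _ (hA.symm.trans hB))
  · exact hpp (by rw [hA, hB, e3])
  · exact hpp (by rw [hA, hB, e3])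
  · exact hne (inj _ _ (hA.symm.trans hB))

/-- an involution exchanging two arcs in every block of a family of disjoint blocks -/
theorem exists_inv (M : Finset V → Prop) (hd : A → V)
    (hdis : ∀ U W, M U → M W → (U ∩ W).Nonempty → U = W) (a b : Finset V → A)
    (ha : ∀ U, M U → hd (a U) ∈ U) (hb : ∀ U, M U → hd (b U) ∈ U) (hab : ∀ U, M U → a U ≠ b U) :
    ∃ σ : A → A, (∀ e, σ (σ e) = e) ∧ ∀ U, M U → σ (a U) = b U := by
  classical
  have huniq : ∀ e U W, M U → M W → (e = a U ∨ e = b U) → (e = a W ∨ e = b W) → U = W := by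
    intro e U W hU hW h1 h2
    refine hdis U W hU hW ⟨hd e, mem_inter.2 ⟨?_, ?_⟩⟩
    · rcases h1 with rfl | rfl
      · exact ha U hU
      · exact hb U hU
    · rcases h2 with rfl | rfl
      · exact ha W hW
      · exact hb W hW
  let P : A → Finset V → Prop := fun e U => M U ∧ (e = a U ∨ e = b U)
  let σ : A → A := fun e => if h : ∃ U, P e U then (if e = a h.choose then b h.choose else a h.choose) else e
  have hsa : ∀ U, M U → σ (a U) = b U := by
    intro U hU
    have h : ∃ W, P (a U) W := ⟨U, hU, Or.inl rfl⟩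
    have hc := h.choose_spec
    have he : h.choose = U := huniq (a U) _ _ hc.1 hU hc.2 (Or.inl rfl)
    simp only [σ, dif_pos h, he, if_true]
  have hsb : ∀ U, M U → σ (b U) = a U := by
    intro U hU
    have h : ∃ W, P (b U) W := ⟨U, hU, Or.inr rfl⟩
    have hc := h.choose_spec
    have he : h.choose = U := huniq (b U) _ _ hc.1 hU hc.2 (Or.inr rfl)
    simp only [σ, dif_pos h, he, if_neg (hab U hU).symm]
  refine ⟨σ, fun e => ?_, hsa⟩
  by_cases h : ∃ U, P e U
  · obtain ⟨U, hU, rfl | rfl⟩ := h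
    · rw [hsa U hU, hsb U hU]
    · rw [hsb U hU, hsa U hU]
  · have : σ e = e := by simp only [σ, dif_neg h]
    rw [this, this]

/-- **two colours** -/
theorem two_colour {r : V → V → Prop} (hrefl : ∀ v, r v v) (htr : ∀ u v w, r u v → r v w → r u w)
    {Rt : Finset V} (hRt : Dn r Rt) {tl hd : A → V} {H : Finset A} (hH : ∀ e ∈ H, r (tl e) (hd e))
    (h2 : ∀ U, Fam r Rt U → 2 ≤ (ent tl hd H U).card) (O1 O2 : Finset A)
    (hO1 : ∀ e ∈ O1, tl e ∈ Rt) (hO2 : ∀ e ∈ O2, tl e ∈ Rt) (hdis : Disjoint O1 O2) :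
    ∃ g : A → Bool, (∀ b U, Fam r Rt U → ∃ e ∈ H, g e = b ∧ tl e ∉ U ∧ hd e ∈ U) ∧
      (2 ≤ O1.card → ∀ b, ∃ e ∈ O1, g e = b) ∧ (2 ≤ O2.card → ∀ b, ∃ e ∈ O2, g e = b) := by
  classical
  -- root arcs `E`, other arcs `B`
  let E : Finset A := H.filter fun e => tl e ∈ Rt
  let B : Finset A := H.filter fun e => tl e ∉ Rt
  have hEB : ∀ U, (ent tl hd E U).card + (ent tl hd B U).card = (ent tl hd H U).card := by
    intro U
    rw [← card_union_of_disjoint]
    · congr 1
      ext e
      simp only [mem_union, mem_ent, E, B, mem_filter]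
      tauto
    · rw [Finset.disjoint_left]
      intro e h1 h2
      simp only [mem_ent, E, B, mem_filter] at h1 h2
      exact h2.1.2 h1.1.2
  let F0 : Finset V → Prop := fun U => Fam r Rt U ∧ (ent tl hd B U).card = 0
  let M : Finset V → Prop := fun U => F0 U ∧ ∀ W, F0 W → W ⊆ U → W = U
  have hF0 : ∀ U W, F0 U → F0 W → (U ∩ W).Nonempty → F0 (U ∩ W) := by
    intro U W hU hW hne
    refine ⟨hU.1.inter hW.1 hne, ?_⟩
    have := ent_modular (tl := tl) (hd := hd) (S := B) (fun e he => hH e (mem_filter.1 he).1)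
      hU.1.2.1 hW.1.2.1
    have h3 := hU.2
    have h4 := hW.2
    omega
  have hMdis : ∀ U W, M U → M W → (U ∩ W).Nonempty → U = W := by
    intro U W hU hW hne
    have h := hF0 U W hU.1 hW.1 hne
    have e1 := hU.2 _ h inter_subset_left
    have e2 := hW.2 _ h inter_subset_right
    rw [← e1, e2]
  have hMin : ∀ U, F0 U → ∃ W, M W ∧ W ⊆ U := by
    intro U hU
    obtain ⟨W, hW, hmin⟩ := exists_min_image (univ.filter fun W => F0 W ∧ W ⊆ U) card
      ⟨U, mem_filter.2 ⟨mem_univ _, hU, Subset.refl _⟩⟩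
    obtain ⟨-, hW1, hW2⟩ := mem_filter.1 hW
    refine ⟨W, ⟨hW1, fun X hX hXW => ?_⟩, hW2⟩
    exact eq_of_subset_of_card_le hXW (hmin X (mem_filter.2 ⟨mem_univ _, hX, hXW.trans hW2⟩))
  have hpair : ∀ U, M U → ∃ x y, x ∈ ent tl hd E U ∧ y ∈ ent tl hd E U ∧ x ≠ y := by
    intro U hU
    have h3 := h2 U hU.1.1
    have h4 := hEB U
    have h5 := hU.1.2
    obtain ⟨x, hx, y, hy, hxy⟩ := one_lt_card.1 (show 1 < (ent tl hd E U).card by omega)
    exact ⟨x, y, hx, hy, hxy⟩
  by_cases hA : Nonempty A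
  swap
  · refine ⟨fun _ => true, ?_, ?_, ?_⟩
    · intro b U hU
      have h3 := h2 U hU
      obtain ⟨e, _⟩ := card_pos.1 (lt_of_lt_of_le two_pos h3)
      exact absurd ⟨e⟩ hA
    · intro h
      obtain ⟨e, _⟩ := card_pos.1 (lt_of_lt_of_le two_pos h)
      exact absurd ⟨e⟩ hA
    · intro h
      obtain ⟨e, _⟩ := card_pos.1 (lt_of_lt_of_le two_pos h)
      exact absurd ⟨e⟩ hA
  obtain ⟨a, b, hab⟩ : ∃ a b : Finset V → A, ∀ U, M U →
      a U ∈ ent tl hd E U ∧ b U ∈ ent tl hd E U ∧ a U ≠ b U := by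
    obtain ⟨e0⟩ := hA
    have : ∀ U, ∃ x y, M U → x ∈ ent tl hd E U ∧ y ∈ ent tl hd E U ∧ x ≠ y := by
      intro U
      by_cases h : M U
      · obtain ⟨x, y, h1⟩ := hpair U h
        exact ⟨x, y, fun _ => h1⟩
      · exact ⟨e0, e0, fun h' => absurd h' h⟩
    choose a b hab using this
    exact ⟨a, b, hab⟩
  obtain ⟨σ, hσ, hσa⟩ := exists_inv M hd hMdis a b (fun U hU => (mem_ent.1 (hab U hU).1).2.2)
    (fun U hU => (mem_ent.1 (hab U hU).2.1).2.2) (fun U hU => (hab U hU).2.2)
  obtain ⟨g, hg, hg1, hg2⟩ := comb hσ O1 O2 hdis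
  have hgab : ∀ U, M U → g (b U) ≠ g (a U) := by
    intro U hU
    have := hg (a U) (by rw [hσa U hU]; exact (hab U hU).2.2.symm)
    rwa [hσa U hU] at this
  -- root sets
  let R : Bool → Finset V := fun c => Rt ∪ univ.filter fun v => ∃ e ∈ E, g e = c ∧ r v (hd e)
  have hmeet : ∀ U, Fam r Rt U → ∀ e ∈ E, hd e ∈ U → ¬ Disjoint U (R (g e)) := by
    intro U _ e he hU hdis'
    refine Finset.disjoint_left.1 hdis' hU ?_
    exact mem_union_right _ (mem_filter.2 ⟨mem_univ _, e, he, rfl, hrefl _⟩)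
  obtain ⟨f, hf⟩ := edmonds (C := Bool) hrefl htr (Rt := Rt) (tl := tl) (hd := hd) _ B R rfl
    (fun e he => hH e (mem_filter.1 he).1) (by
      intro c u hu v hvu
      rw [mem_union, mem_filter] at hu ⊢
      rcases hu with hu | ⟨-, e, he, h3, h4⟩
      · exact Or.inl (hRt u hu v hvu)
      · exact Or.inr ⟨mem_univ _, e, he, h3, htr _ _ _ hvu h4⟩)
    (fun c => subset_union_left) (by
      intro U hU
      have hle2 : num R U ≤ 2 := by
        refine (card_le_univ _).trans ?_
        simp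
      by_cases c0 : (ent tl hd B U).card = 0
      · obtain ⟨W, hW, hWU⟩ := hMin U ⟨hU, c0⟩
        have h3 := hab W hW
        have h4 := hgab W hW
        have m1 := mem_ent.1 h3.1
        have m2 := mem_ent.1 h3.2.1
        have n1 := hmeet U hU _ m1.1 (hWU m1.2.2)
        have n2 := hmeet U hU _ m2.1 (hWU m2.2.2)
        have : num R U = 0 := by
          rw [num, card_eq_zero, filter_eq_empty_iff]
          intro c _
          by_cases hc : c = g (a W)
          · rw [hc]; exact n1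
          · have : c = g (b W) := by
              revert hc h4
              cases c <;> cases g (a W) <;> cases g (b W) <;> simp
            rw [this]; exact n2
        omega
      · by_cases c1 : (ent tl hd B U).card = 1
        · have h3 := h2 U hU
          have h4 := hEB U
          obtain ⟨e, he⟩ := card_pos.1 (show 0 < (ent tl hd E U).card by omega)
          have m1 := mem_ent.1 he
          have n1 := hmeet U hU _ m1.1 m1.2.2
          have : num R U ≤ 1 := by
            rw [num]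
            have hs : (univ.filter fun c => Disjoint U (R c)) ⊆ {!(g e)} := by
              intro c hc
              rw [mem_filter] at hc
              rw [mem_singleton]
              have hne : c ≠ g e := fun h5 => n1 (h5 ▸ hc.2)
              revert hne
              cases c <;> cases g e <;> simp
            exact (card_le_card hs).trans (by simp)
          omega
        · omega)
  refine ⟨fun e => if tl e ∈ Rt then g e else f e, ?_, ?_, ?_⟩
  · intro c U hU
    by_cases hdis' : Disjoint U (R c)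
    · obtain ⟨e, he, h3, h4⟩ := hf c U hU hdis'
      obtain ⟨h5, h6⟩ := mem_filter.1 he
      exact ⟨e, h5, (if_neg h6).trans h3, h4⟩
    · rw [Finset.not_disjoint_iff] at hdis'
      obtain ⟨v, hvU, hv⟩ := hdis'
      rw [mem_union, mem_filter] at hv
      rcases hv with hv | ⟨-, e, he, h3, h4⟩
      · exact absurd hv (Finset.disjoint_left.1 hU.2.2 hvU)
      · obtain ⟨h5, h6⟩ := mem_filter.1 he
        exact ⟨e, h5, (if_pos h6).trans h3, Finset.disjoint_right.1 hU.2.2 h6,
          hU.2.1 v hvU _ h4⟩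
  · intro hc c
    obtain ⟨p, hp, p', hp', hne⟩ := hg1 hc
    by_cases h3 : g p = c
    · exact ⟨p, hp, (if_pos (hO1 p hp)).trans h3⟩
    · refine ⟨p', hp', (if_pos (hO1 p' hp')).trans ?_⟩
      revert hne h3
      cases g p <;> cases g p' <;> cases c <;> simp
  · intro hc c
    obtain ⟨p, hp, p', hp', hne⟩ := hg2 hc
    by_cases h3 : g p = c
    · exact ⟨p, hp, (if_pos (hO2 p hp)).trans h3⟩
    · refine ⟨p', hp', (if_pos (hO2 p' hp')).trans ?_⟩
      revert hne h3
      cases g p <;> cases g p' <;> cases c <;> simp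

end Wood2
end

section
/-!
# `k` colours, if both roots send `k` arcs to vertices above both roots
-/
open Finset

namespace Wood2

set_option linter.unusedSectionVars false

variable {V A : Type} [Fintype V] [DecidableEq V] [Fintype A] [DecidableEq A]

/-- cuts -/
def Cut (r : V → V → Prop) (U : Finset V) : Prop := U.Nonempty ∧ U ≠ univ ∧ Up r U

/-- `f` is a colouring of the arcs such that every colour class of arcs of `S` meets every cut -/
def Pk (r : V → V → Prop) (tl hd : A → V) (S : Finset A) (k : ℕ) (f : A → Fin k) : Prop :=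
  ∀ i U, Cut r U → ∃ e ∈ S, f e = i ∧ tl e ∉ U ∧ hd e ∈ U

/-- the colours of the arcs of `O` -/
def cols {k : ℕ} (O : Finset A) (f : A → Fin k) : Finset (Fin k) := O.image f

/-- colourings good for the family `Fam` -/
def Gd (r : V → V → Prop) (Rt : Finset V) (tl hd : A → V) (S : Finset A) (k : ℕ) (f : A → Fin k) :
    Prop := ∀ i U, Fam r Rt U → ∃ e ∈ S, f e = i ∧ tl e ∉ U ∧ hd e ∈ U

theorem step {r : V → V → Prop} (hrefl : ∀ v, r v v) (htr : ∀ u v w, r u v → r v w → r u w)
    {Rt : Finset V} (hRt : Dn r Rt) {tl hd : A → V} {S : Finset A} (hS : ∀ e ∈ S, r (tl e) (hd e))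
    {k : ℕ} {O1 O2 : Finset A} (hO1 : ∀ e ∈ O1, e ∈ S ∧ tl e ∈ Rt) (hO2 : ∀ e ∈ O2, e ∈ S ∧ tl e ∈ Rt)
    (hdis : Disjoint O1 O2) (hk : k ≤ O1.card) {f : A → Fin k} (hf : Gd r Rt tl hd S k f)
    {i : Fin k} (hi : i ∉ cols O1 f) :
    ∃ f' : A → Fin k, Gd r Rt tl hd S k f' ∧ (cols O1 f).card < (cols O1 f').card ∧
      (cols O2 f).card ≤ (cols O2 f').card := by
  classical
  have hi' : ∀ e ∈ O1, f e ≠ i := fun e he h => hi (mem_image.2 ⟨e, he, h⟩)
  obtain ⟨p, hp, p', hp', hne, hpp⟩ : ∃ p ∈ O1, ∃ p' ∈ O1, p ≠ p' ∧ f p = f p' := by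
    apply exists_ne_map_eq_of_card_lt_of_maps_to (t := univ.erase i)
    · rw [card_erase_of_mem (mem_univ _), card_univ, Fintype.card_fin]
      have := i.isLt
      omega
    · intro e he
      exact mem_erase.2 ⟨hi' e he, mem_univ _⟩
  set j := f p with hj
  have hij : i ≠ j := fun h => hi' p hp (h ▸ rfl)
  let H : Finset A := S.filter fun e => f e = i ∨ f e = j
  have hH2 : ∀ U, Fam r Rt U → 2 ≤ (ent tl hd H U).card := by
    intro U hU
    obtain ⟨e, he, h1, h2⟩ := hf i U hU
    obtain ⟨e', he', h1', h2'⟩ := hf j U hU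
    have hne : e ≠ e' := fun h => hij (by rw [← h1, ← h1', h])
    rw [← card_pair hne]
    refine card_le_card fun x hx => ?_
    rw [mem_insert, mem_singleton] at hx
    rcases hx with rfl | rfl
    · exact mem_ent.2 ⟨mem_filter.2 ⟨he, Or.inl h1⟩, h2⟩
    · exact mem_ent.2 ⟨mem_filter.2 ⟨he', Or.inr h1'⟩, h2'⟩
  obtain ⟨g, hg, hg1, hg2⟩ := two_colour hrefl htr hRt (H := H) (fun e he => hS e (mem_filter.1 he).1)
    hH2 (O1.filter fun e => e ∈ H) (O2.filter fun e => e ∈ H)
    (fun e he => (hO1 e (mem_filter.1 he).1).2) (fun e he => (hO2 e (mem_filter.1 he).1).2)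
    (disjoint_filter_filter hdis)
  let f' : A → Fin k := fun e => if e ∈ H then (if g e then i else j) else f e
  have hf'H : ∀ e ∈ H, f' e = if g e then i else j := fun e he => if_pos he
  have hf'n : ∀ e, e ∉ H → f' e = f e := fun e he => if_neg he
  have hpH : p ∈ H := mem_filter.2 ⟨(hO1 p hp).1, Or.inr rfl⟩
  have hpH' : p' ∈ H := mem_filter.2 ⟨(hO1 p' hp').1, Or.inr hpp.symm⟩
  refine ⟨f', ?_, ?_, ?_⟩
  · intro l U hU
    by_cases hli : l = i
    · obtain ⟨e, he, h1, h2⟩ := hg true U hU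
      refine ⟨e, (mem_filter.1 he).1, ?_, h2⟩
      rw [hf'H e he, h1, hli]
      rfl
    · by_cases hlj : l = j
      · obtain ⟨e, he, h1, h2⟩ := hg false U hU
        refine ⟨e, (mem_filter.1 he).1, ?_, h2⟩
        rw [hf'H e he, h1, hlj]
        rfl
      · obtain ⟨e, he, h1, h2⟩ := hf l U hU
        refine ⟨e, he, ?_, h2⟩
        rw [hf'n, h1]
        intro heH
        rcases (mem_filter.1 heH).2 with h | h
        · exact hli (h1.symm.trans h)
        · exact hlj (h1.symm.trans h)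
  · have hc1 : 2 ≤ (O1.filter fun e => e ∈ H).card := by
      rw [← card_pair hne]
      refine card_le_card fun x hx => ?_
      rw [mem_insert, mem_singleton] at hx
      rcases hx with rfl | rfl
      · exact mem_filter.2 ⟨hp, hpH⟩
      · exact mem_filter.2 ⟨hp', hpH'⟩
    have him : i ∈ cols O1 f' := by
      obtain ⟨e, he, h1⟩ := hg1 hc1 true
      rw [mem_filter] at he
      exact mem_image.2 ⟨e, he.1, by rw [hf'H e he.2, h1]; rfl⟩
    refine card_lt_card ?_
    rw [ssubset_iff_of_subset]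
    · exact ⟨i, him, hi⟩
    · intro l hl
      obtain ⟨e, he, rfl⟩ := mem_image.1 hl
      by_cases heH : e ∈ H
      · have hfe : f e = j := by
          rcases (mem_filter.1 heH).2 with h | h
          · exact absurd h (hi' e he)
          · exact h
        obtain ⟨x, hx, h1⟩ := hg1 hc1 false
        rw [mem_filter] at hx
        exact mem_image.2 ⟨x, hx.1, by rw [hf'H x hx.2, h1, hfe]; rfl⟩
      · exact mem_image.2 ⟨e, he, hf'n e heH⟩
  · by_cases hc2 : 2 ≤ (O2.filter fun e => e ∈ H).card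
    · refine card_le_card fun l hl => ?_
      obtain ⟨e, he, rfl⟩ := mem_image.1 hl
      by_cases heH : e ∈ H
      · rcases (mem_filter.1 heH).2 with h | h
        · obtain ⟨x, hx, h1⟩ := hg2 hc2 true
          rw [mem_filter] at hx
          exact mem_image.2 ⟨x, hx.1, by rw [hf'H x hx.2, h1, h]; rfl⟩
        · obtain ⟨x, hx, h1⟩ := hg2 hc2 false
          rw [mem_filter] at hx
          exact mem_image.2 ⟨x, hx.1, by rw [hf'H x hx.2, h1, h]; rfl⟩
      · exact mem_image.2 ⟨e, he, hf'n e heH⟩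
    · by_cases hc0 : (O2.filter fun e => e ∈ H) = ∅
      · refine card_le_card fun l hl => ?_
        obtain ⟨e, he, rfl⟩ := mem_image.1 hl
        have heH : e ∉ H := fun heH => by
          have : e ∈ O2.filter fun e => e ∈ H := mem_filter.2 ⟨he, heH⟩
          rw [hc0] at this
          exact absurd this (notMem_empty _)
        exact mem_image.2 ⟨e, he, hf'n e heH⟩
      · have hc1 : (O2.filter fun e => e ∈ H).card = 1 := by
          have := card_pos.2 (nonempty_iff_ne_empty.2 hc0)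
          omega
        obtain ⟨x, hx⟩ := card_eq_one.1 hc1
        have hxm : x ∈ O2.filter fun e => e ∈ H := by rw [hx]; exact mem_singleton_self _
        rw [mem_filter] at hxm
        have huniq : ∀ e ∈ O2, e ∈ H → e = x := fun e he heH => by
          have : e ∈ O2.filter fun e => e ∈ H := mem_filter.2 ⟨he, heH⟩
          rw [hx, mem_singleton] at this
          exact this
        have hfx : f x = i ∨ f x = j := (mem_filter.1 hxm.2).2
        have hf'x : f' x = i ∨ f' x = j := by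
          rw [hf'H x hxm.2]
          by_cases h : g x = true
          · left; rw [if_pos h]
          · right; rw [if_neg h]
        have hsub : insert (f' x) ((cols O2 f).erase (f x)) ⊆ cols O2 f' := by
          intro l hl
          rw [mem_insert, mem_erase] at hl
          rcases hl with rfl | ⟨h1, h2⟩
          · exact mem_image.2 ⟨x, hxm.1, rfl⟩
          · obtain ⟨e, he, rfl⟩ := mem_image.1 h2
            have heH : e ∉ H := fun heH => h1 (by rw [huniq e he heH])
            exact mem_image.2 ⟨e, he, hf'n e heH⟩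
        have hnm : f' x ∉ (cols O2 f).erase (f x) := by
          intro h
          rw [mem_erase] at h
          obtain ⟨e, he, h2⟩ := mem_image.1 h.2
          have heH : e ∉ H := fun heH => h.1 (by rw [← h2, huniq e he heH])
          apply heH
          refine mem_filter.2 ⟨(hO2 e he).1, ?_⟩
          rw [h2]
          exact hf'x
        have hmem : f x ∈ cols O2 f := mem_image.2 ⟨x, hxm.1, rfl⟩
        have h3 := card_le_card hsub
        rw [card_insert_of_notMem hnm, card_erase_add_one hmem] at h3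
        exact h3

/-- (N) -/
theorem pack_of_many {r : V → V → Prop} (hrefl : ∀ v, r v v) (htr : ∀ u v w, r u v → r v w → r u w)
    {s1 s2 : V} (h2 : ∀ v, r s1 v ∨ r s2 v) (h12 : ¬ r s1 s2) (h21 : ¬ r s2 s1) {tl hd : A → V}
    {S : Finset A} (hS : ∀ e ∈ S, r (tl e) (hd e)) {k : ℕ} (hk : 0 < k)
    (hcut : ∀ U, Cut r U → k ≤ (ent tl hd S U).card) (O1 O2 : Finset A)
    (hO1 : ∀ e ∈ O1, e ∈ S ∧ r (tl e) s1 ∧ r s2 (hd e))
    (hO2 : ∀ e ∈ O2, e ∈ S ∧ r (tl e) s2 ∧ r s1 (hd e)) (hk1 : k ≤ O1.card) (hk2 : k ≤ O2.card) :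
    ∃ f : A → Fin k, Pk r tl hd S k f := by
  classical
  let Rt : Finset V := univ.filter fun v => r v s1 ∨ r v s2
  have hRt : Dn r Rt := by
    intro u hu v hvu
    rw [mem_filter] at hu ⊢
    exact ⟨mem_univ _, hu.2.imp (htr _ _ _ hvu) (htr _ _ _ hvu)⟩
  have hs1 : s1 ∈ Rt := mem_filter.2 ⟨mem_univ _, Or.inl (hrefl _)⟩
  have hs2 : s2 ∈ Rt := mem_filter.2 ⟨mem_univ _, Or.inr (hrefl _)⟩
  have hFc : ∀ U, Fam r Rt U → Cut r U := fun U hU =>
    ⟨hU.1, fun h => Finset.disjoint_right.1 hU.2.2 hs1 (h ▸ mem_univ _), hU.2.1⟩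
  have hdis : Disjoint O1 O2 := by
    rw [Finset.disjoint_left]
    intro e h1 h3
    rcases h2 (tl e) with h | h
    · exact h12 (htr _ _ _ h (hO2 e h3).2.1)
    · exact h21 (htr _ _ _ h (hO1 e h1).2.1)
  have hO1' : ∀ e ∈ O1, e ∈ S ∧ tl e ∈ Rt := fun e he =>
    ⟨(hO1 e he).1, mem_filter.2 ⟨mem_univ _, Or.inl (hO1 e he).2.1⟩⟩
  have hO2' : ∀ e ∈ O2, e ∈ S ∧ tl e ∈ Rt := fun e he =>
    ⟨(hO2 e he).1, mem_filter.2 ⟨mem_univ _, Or.inr (hO2 e he).2.1⟩⟩
  have : Nonempty (Fin k) := ⟨⟨0, hk⟩⟩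
  obtain ⟨f0, hf0⟩ : ∃ f : A → Fin k, Gd r Rt tl hd S k f := by
    obtain ⟨f, hf⟩ := edmonds (C := Fin k) hrefl htr (Rt := Rt) (tl := tl) (hd := hd) _ S
      (fun _ => Rt) rfl hS (fun _ => hRt) (fun _ => Subset.refl _) (by
        intro U hU
        refine le_trans ?_ (hcut U (hFc U hU))
        exact (card_le_univ _).trans (by simp))
    exact ⟨f, fun i U hU => hf i U hU hU.2.2⟩
  obtain ⟨f, hf, hmax⟩ := exists_max_image (univ.filter fun f : A → Fin k => Gd r Rt tl hd S k f)
    (fun f => (cols O1 f).card + (cols O2 f).card) ⟨f0, mem_filter.2 ⟨mem_univ _, hf0⟩⟩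
  rw [mem_filter] at hf
  have hall1 : ∀ i, i ∈ cols O1 f := by
    intro i
    by_contra hi
    obtain ⟨f', h1, h3, h4⟩ := step hrefl htr hRt hS hO1' hO2' hdis hk1 hf.2 hi
    have := hmax f' (mem_filter.2 ⟨mem_univ _, h1⟩)
    omega
  have hall2 : ∀ i, i ∈ cols O2 f := by
    intro i
    by_contra hi
    obtain ⟨f', h1, h3, h4⟩ := step hrefl htr hRt hS hO2' hO1' hdis.symm hk2 hf.2 hi
    have := hmax f' (mem_filter.2 ⟨mem_univ _, h1⟩)
    omega
  refine ⟨f, fun i U hU => ?_⟩
  by_cases m1 : s1 ∈ U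
  · by_cases m2 : s2 ∈ U
    · exfalso
      apply hU.2.1
      rw [eq_univ_iff_forall]
      intro v
      rcases h2 v with h | h
      · exact hU.2.2 _ m1 _ h
      · exact hU.2.2 _ m2 _ h
    · obtain ⟨e, he, h3⟩ := mem_image.1 (hall2 i)
      obtain ⟨a, b, c⟩ := hO2 e he
      exact ⟨e, a, h3, fun h => m2 (hU.2.2 _ h _ b), hU.2.2 _ m1 _ c⟩
  · by_cases m2 : s2 ∈ U
    · obtain ⟨e, he, h3⟩ := mem_image.1 (hall1 i)
      obtain ⟨a, b, c⟩ := hO1 e he
      exact ⟨e, a, h3, fun h => m1 (hU.2.2 _ h _ b), hU.2.2 _ m2 _ c⟩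
    · refine hf.2 i U ⟨hU.1, hU.2.2, ?_⟩
      rw [Finset.disjoint_left]
      intro v hv hv'
      rcases (mem_filter.1 hv').2 with h | h
      · exact m1 (hU.2.2 _ hv _ h)
      · exact m2 (hU.2.2 _ hv _ h)

/-- one root: a packing -/
theorem pack_one {r : V → V → Prop} (hrefl : ∀ v, r v v) (htr : ∀ u v w, r u v → r v w → r u w)
    {s : V} (h : ∀ v, r s v) {tl hd : A → V} {S : Finset A} (hS : ∀ e ∈ S, r (tl e) (hd e)) {k : ℕ}
    (hk : 0 < k) (hcut : ∀ U, Cut r U → k ≤ (ent tl hd S U).card) :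
    ∃ f : A → Fin k, Pk r tl hd S k f := by
  classical
  let Rt : Finset V := univ.filter fun v => r v s
  have hRt : Dn r Rt := by
    intro u hu v hvu
    rw [mem_filter] at hu ⊢
    exact ⟨mem_univ _, htr _ _ _ hvu hu.2⟩
  have hs : s ∈ Rt := mem_filter.2 ⟨mem_univ _, hrefl _⟩
  have hFc : ∀ U, Fam r Rt U → Cut r U := fun U hU =>
    ⟨hU.1, fun h => Finset.disjoint_right.1 hU.2.2 hs (h ▸ mem_univ _), hU.2.1⟩
  have : Nonempty (Fin k) := ⟨⟨0, hk⟩⟩
  obtain ⟨f, hf⟩ := edmonds (C := Fin k) hrefl htr (Rt := Rt) (tl := tl) (hd := hd) _ S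
    (fun _ => Rt) rfl hS (fun _ => hRt) (fun _ => Subset.refl _) (by
      intro U hU
      refine le_trans ?_ (hcut U (hFc U hU))
      exact (card_le_univ _).trans (by simp))
  refine ⟨f, fun i U hU => ?_⟩
  have hd0 : Disjoint U Rt := by
    rw [Finset.disjoint_left]
    intro v hv hv'
    apply hU.2.1
    rw [eq_univ_iff_forall]
    intro x
    exact hU.2.2 _ hv _ (htr _ _ _ (mem_filter.1 hv').2 (h x))
  exact hf i U ⟨hU.1, hU.2.2, hd0⟩ hd0

end Wood2
end

section
/-!
# Two colours, at most two roots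
-/
open Finset

namespace Wood2

set_option linter.unusedSectionVars false

variable {V A : Type} [Fintype V] [DecidableEq V] [Fintype A] [DecidableEq A]

open Classical in
/-- number of unrelated pairs -/
noncomputable def nr (r : V → V → Prop) : ℕ := (univ.filter fun p : V × V => ¬ r p.1 p.2).card

theorem nr_lt {r r' : V → V → Prop} (h : ∀ u v, r u v → r' u v) {a b : V} (hn : ¬ r a b)
    (hy : r' a b) : nr r' < nr r := by
  classical
  unfold nr
  refine card_lt_card ?_
  rw [ssubset_iff_of_subset]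
  · exact ⟨(a, b), mem_filter.2 ⟨mem_univ _, hn⟩, fun h => (mem_filter.1 h).2 hy⟩
  · intro p hp
    rw [mem_filter] at hp ⊢
    exact ⟨mem_univ _, fun h' => hp.2 (h _ _ h')⟩

/-- the measure of the induction -/
noncomputable def ms (r : V → V → Prop) (S : Finset A) : ℕ := nr r * (Fintype.card A + 1) + S.card

theorem Pk.mono {r : V → V → Prop} {tl hd : A → V} {S T : Finset A} (h : S ⊆ T) {k : ℕ} {f : A → Fin k}
    (hf : Pk r tl hd S k f) : Pk r tl hd T k f := fun i U hU => by
  obtain ⟨e, he, h1⟩ := hf i U hU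
  exact ⟨e, h he, h1⟩

/-- splitting -/
theorem split_lift {r : V → V → Prop} {tl hd : A → V} {S : Finset A} {e e2 : A} (he : e ∈ S)
    (he2 : e2 ∈ S) (hne : e2 ≠ e) (hux : r (tl e2) (hd e)) {k : ℕ} {f : A → Fin k}
    (hf : Pk r tl (Function.update hd e (hd e2)) (S.erase e2) k f) :
    Pk r tl hd S k (Function.update f e2 (f e)) := by
  intro i U hU
  obtain ⟨e', he', h1, h2, h3⟩ := hf i U hU
  rw [mem_erase] at he'
  by_cases h : e' = e
  · subst h
    rw [Function.update_self] at h3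
    by_cases hx : hd e' ∈ U
    · exact ⟨e', he, by rw [Function.update_of_ne he'.1]; exact h1, h2, hx⟩
    · exact ⟨e2, he2, by rw [Function.update_self]; exact h1, fun h4 => hx (hU.2.2 _ h4 _ hux), h3⟩
  · rw [Function.update_of_ne h] at h3
    exact ⟨e', he'.2, by rw [Function.update_of_ne he'.1]; exact h1, h2, h3⟩

theorem ent_insert {tl hd : A → V} {T : Finset A} {e : A} (he : e ∉ T) (U : Finset V) :
    (ent tl hd (insert e T) U).card =
      (if tl e ∉ U ∧ hd e ∈ U then 1 else 0) + (ent tl hd T U).card := by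
  simp only [ent, card_filter]
  rw [sum_insert he]

theorem split_cut {r : V → V → Prop} {tl hd : A → V} {S : Finset A}
    (hS : ∀ e ∈ S, r (tl e) (hd e)) {e e2 : A} (he : e ∈ S) (he2 : e2 ∈ S) (hne : e2 ≠ e)
    (hux : r (tl e2) (hd e)) (hau : r (tl e) (tl e2)) {U : Finset V} (hU : Up r U)
    (h2 : 2 ≤ (ent tl hd S U).card)
    (h3 : hd e ∈ U → tl e2 ∉ U → 3 ≤ (ent tl hd S U).card) :
    2 ≤ (ent tl (Function.update hd e (hd e2)) (S.erase e2) U).card := by
  have hS' : S = insert e (insert e2 ((S.erase e2).erase e)) := by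
    ext x
    simp only [mem_insert, mem_erase]
    by_cases h1 : x = e
    · subst h1; simp [he]
    · by_cases h4 : x = e2
      · subst h4; simp [he2]
      · simp [h1, h4]
  have hn1 : e ∉ insert e2 ((S.erase e2).erase e) := by
    simp [hne.symm]
  have hn2 : e2 ∉ (S.erase e2).erase e := by simp
  have hS2 : S.erase e2 = insert e ((S.erase e2).erase e) := by
    rw [insert_erase]
    exact mem_erase.2 ⟨hne.symm, he⟩
  have hn3 : e ∉ (S.erase e2).erase e := by simp
  have hT : ent tl (Function.update hd e (hd e2)) ((S.erase e2).erase e) U =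
      ent tl hd ((S.erase e2).erase e) U := by
    ext x
    simp only [mem_ent]
    constructor
    · rintro ⟨h1, h4, h5⟩
      rw [Function.update_of_ne (mem_erase.1 h1).1] at h5
      exact ⟨h1, h4, h5⟩
    · rintro ⟨h1, h4, h5⟩
      refine ⟨h1, h4, ?_⟩
      rw [Function.update_of_ne (mem_erase.1 h1).1]
      exact h5
  have c1 : (ent tl hd S U).card = (if tl e ∉ U ∧ hd e ∈ U then 1 else 0) +
      ((if tl e2 ∉ U ∧ hd e2 ∈ U then 1 else 0) + (ent tl hd ((S.erase e2).erase e) U).card) := by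
    conv_lhs => rw [hS']
    rw [ent_insert hn1, ent_insert hn2]
  have c2 : (ent tl (Function.update hd e (hd e2)) (S.erase e2) U).card =
      (if tl e ∉ U ∧ hd e2 ∈ U then 1 else 0) + (ent tl hd ((S.erase e2).erase e) U).card := by
    conv_lhs => rw [hS2]
    rw [ent_insert hn3, hT, Function.update_self]
  rw [c2]
  rw [c1] at h2 h3
  have a1 : tl e ∈ U → tl e2 ∈ U := fun h => hU _ h _ hau
  have a2 : tl e2 ∈ U → hd e ∈ U := fun h => hU _ h _ hux
  have a3 : tl e2 ∈ U → hd e2 ∈ U := fun h => hU _ h _ (hS _ he2)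
  by_cases b1 : tl e ∈ U
  · have b2 := a1 b1
    simp only [b1, b2, not_true_eq_false, false_and, if_false] at h2 ⊢
    omega
  · by_cases b2 : tl e2 ∈ U
    · have b3 := a2 b2
      have b4 := a3 b2
      simp only [b1, b2, b3, b4, not_true_eq_false, not_false_eq_true, false_and, true_and, if_true,
        if_false] at h2 ⊢
      omega
    · by_cases b3 : hd e ∈ U
      · have h4 := h3 b3 b2
        by_cases b4 : hd e2 ∈ U
        · simp only [b1, b2, b3, b4, not_false_eq_true, true_and, if_true] at h4 ⊢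
          omega
        · simp only [b1, b2, b3, b4, not_false_eq_true, true_and, if_true, and_false, if_false] at h4 ⊢
          omega
      · by_cases b4 : hd e2 ∈ U
        · simp only [b1, b2, b3, b4, not_false_eq_true, true_and, if_true, and_false, if_false] at h2 ⊢
          omega
        · simp only [b1, b2, b3, b4, and_false, if_false] at h2 ⊢
          omega

/-- the arcs of a root in a minimal counterexample -/
theorem root_arcs {s1 s2 : V} {tl : A → V} {r : V → V → Prop} {hd : A → V} {S : Finset A}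
    (IH : ∀ (r' : V → V → Prop) (hd' : A → V) (S' : Finset A), ms r' S' < ms r S →
      (∀ v, r' v v) → (∀ u v w, r' u v → r' v w → r' u w) → (∀ v, r' s1 v ∨ r' s2 v) →
      (∀ e ∈ S', r' (tl e) (hd' e)) → (∀ U, Cut r' U → 2 ≤ (ent tl hd' S' U).card) →
      ∃ f : A → Fin 2, Pk r' tl hd' S' 2 f)
    (hrefl : ∀ v, r v v) (htr : ∀ u v w, r u v → r v w → r u w) (h2 : ∀ v, r s1 v ∨ r s2 v)
    (hS : ∀ e ∈ S, r (tl e) (hd e)) (hcut : ∀ U, Cut r U → 2 ≤ (ent tl hd S U).card)
    (hnp : ¬ ∃ f : A → Fin 2, Pk r tl hd S 2 f) :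
    ∀ e ∈ S, r (tl e) s1 → r s2 (hd e) := by
  classical
  intro e he hes1
  by_contra hx
  -- everything below `hd e` is above `s1`
  have hlow : ∀ v, r v (hd e) → r s1 v := by
    intro v hv
    rcases h2 v with h | h
    · exact h
    · exact absurd (htr _ _ _ h hv) hx
  have hs1e : r s1 (tl e) := hlow _ (hS e he)
  have hmsS : ∀ e' ∈ S, ms r (S.erase e') < ms r S := by
    intro e' he'
    unfold ms
    have := card_erase_lt_of_mem he'
    omega
  -- (1) a tight cut
  have t1 : ∃ U, Cut r U ∧ (ent tl hd S U).card = 2 ∧ hd e ∈ U ∧ s1 ∉ U := by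
    by_contra hcon
    push Not at hcon
    apply hnp
    obtain ⟨f, hf⟩ := IH r hd (S.erase e) (hmsS e he) hrefl htr h2
      (fun e' he' => hS e' (mem_of_mem_erase he')) (by
        intro U hU
        have h3 := hcut U hU
        have h4 : ent tl hd (S.erase e) U = (ent tl hd S U).erase e := by
          ext x
          simp only [mem_ent, mem_erase]
          tauto
        rw [h4]
        by_cases h5 : e ∈ ent tl hd S U
        · rw [card_erase_of_mem h5]
          obtain ⟨_, h6, h7⟩ := mem_ent.1 h5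
          have h8 : s1 ∉ U := fun h => h6 (hU.2.2 _ h _ hs1e)
          have h9 : (ent tl hd S U).card ≠ 2 := fun h => h8 (hcon U hU h h7)
          omega
        · rw [erase_eq_of_notMem h5]
          exact h3)
    exact ⟨f, hf.mono (erase_subset _ _)⟩
  -- (2) the minimal tight cut
  obtain ⟨W, hW, hmin⟩ := exists_min_image
    (univ.filter fun U => Cut r U ∧ (ent tl hd S U).card = 2 ∧ hd e ∈ U ∧ s1 ∉ U) card (by
      obtain ⟨U, hU⟩ := t1
      exact ⟨U, mem_filter.2 ⟨mem_univ _, hU⟩⟩)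
  obtain ⟨-, hWc, hW2, hxW, hsW⟩ := mem_filter.1 hW
  have hWsub : ∀ U, Cut r U → (ent tl hd S U).card = 2 → hd e ∈ U → s1 ∉ U → W ⊆ U := by
    intro U hU hU2 hxU hsU
    have m := ent_modular (tl := tl) (hd := hd) hS hU.2.2 hWc.2.2
    have cI : Cut r (U ∩ W) := ⟨⟨hd e, mem_inter.2 ⟨hxU, hxW⟩⟩,
      fun h => hsU (mem_inter.1 (h ▸ mem_univ s1 : s1 ∈ U ∩ W)).1, hU.2.2.inter hWc.2.2⟩
    have cU : Cut r (U ∪ W) := ⟨⟨hd e, mem_union_left _ hxU⟩,
      fun h => (mem_union.1 (h ▸ mem_univ s1 : s1 ∈ U ∪ W)).elim hsU hsW, hU.2.2.union hWc.2.2⟩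
    have f1 := hcut _ cI
    have f2 := hcut _ cU
    have h3 := hmin (U ∩ W) (mem_filter.2 ⟨mem_univ _, cI, by omega, mem_inter.2 ⟨hxU, hxW⟩,
      fun h => hsU (mem_inter.1 h).1⟩)
    have h4 : U ∩ W = W := eq_of_subset_of_card_le inter_subset_right h3
    rw [← h4]
    exact inter_subset_left
  -- (3) splitting
  have t3 : ∀ e2 ∈ S, e2 ≠ e → r (tl e2) (hd e) → tl e2 ∉ W := by
    intro e2 he2 hne hux huW
    apply hnp
    have hau : r (tl e) (tl e2) := htr _ _ _ hes1 (hlow _ hux)
    obtain ⟨f, hf⟩ := IH r (Function.update hd e (hd e2)) (S.erase e2) (hmsS e2 he2) hrefl htr h2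
      (by
        intro e' he'
        rw [mem_erase] at he'
        by_cases h : e' = e
        · subst h
          rw [Function.update_self]
          exact htr _ _ _ hau (hS e2 he2)
        · rw [Function.update_of_ne h]
          exact hS e' he'.2) (by
        intro U hU
        refine split_cut hS he he2 hne hux hau hU.2.2 (hcut U hU) ?_
        intro hxU huU
        have h3 := hcut U hU
        have hsU : s1 ∉ U := fun h => huU (hU.2.2 _ h _ (hlow _ hux))
        have h4 : (ent tl hd S U).card ≠ 2 := fun h => huU (hWsub U hU h hxU hsU huW)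
        omega)
    exact ⟨_, split_lift he he2 hne hux hf⟩
  have hteW : tl e ∉ W := fun h => hsW (hWc.2.2 _ h _ hes1)
  -- (4) `W` is below `hd e`
  have t4 : ∀ v ∈ W, r v (hd e) := by
    by_contra hcon
    push Not at hcon
    obtain ⟨v, hvW, hv⟩ := hcon
    let D : Finset V := univ.filter fun v => r v (hd e)
    have hD : Dn r D := by
      intro u hu w hwu
      rw [mem_filter] at hu ⊢
      exact ⟨mem_univ _, htr _ _ _ hwu hu.2⟩
    have hcD : Cut r (W \ D) := ⟨⟨v, mem_sdiff.2 ⟨hvW, fun h => hv (mem_filter.1 h).2⟩⟩,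
      fun h => hsW (mem_sdiff.1 (h ▸ mem_univ s1 : s1 ∈ W \ D)).1, hWc.2.2.sdiff hD⟩
    have h3 := hcut _ hcD
    have h4 : ent tl hd S (W \ D) ⊆ (ent tl hd S W).erase e := by
      intro e' he'
      obtain ⟨h5, h6, h7⟩ := mem_ent.1 he'
      rw [mem_sdiff] at h6 h7
      have hne : e' ≠ e := by
        rintro rfl
        exact h7.2 (mem_filter.2 ⟨mem_univ _, hrefl _⟩)
      rw [mem_erase]
      refine ⟨hne, mem_ent.2 ⟨h5, ?_, h7.1⟩⟩
      intro h8
      have h9 : tl e' ∈ D := by
        by_contra h10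
        exact h6 ⟨h8, h10⟩
      exact t3 e' h5 hne (mem_filter.1 h9).2 h8
    have h5 := card_le_card h4
    rw [card_erase_of_mem (mem_ent.2 ⟨he, hteW, hxW⟩), hW2] at h5
    omega
  -- (5) a second arc into the class of `hd e`
  let X : Finset V := univ.filter fun v => r (hd e) v
  have hXW : X ⊆ W := fun v hv => hWc.2.2 _ hxW _ (mem_filter.1 hv).2
  have hXc : Cut r X := by
    refine ⟨⟨hd e, mem_filter.2 ⟨mem_univ _, hrefl _⟩⟩,
      fun h => hsW (hXW (h ▸ mem_univ s1 : s1 ∈ X)), ?_⟩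
    intro u hu v huv
    rw [mem_filter] at hu ⊢
    exact ⟨mem_univ _, htr _ _ _ hu.2 huv⟩
  obtain ⟨e', he', hne⟩ := exists_mem_ne (hcut X hXc) e
  obtain ⟨heS', htX, hhX⟩ := mem_ent.1 he'
  have hd1 : r (hd e) (hd e') := (mem_filter.1 hhX).2
  have hd2 : r (hd e') (hd e) := t4 _ (hXW hhX)
  have ht1 : r s1 (tl e') := hlow _ (htr _ _ _ (hS e' heS') hd2)
  have ht2 : r (tl e) (tl e') := htr _ _ _ hes1 ht1
  have hnew : ¬ r (hd e') (tl e') := fun h => htX (mem_filter.2 ⟨mem_univ _, htr _ _ _ hd1 h⟩)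
  -- (6) the new relation
  let r' : V → V → Prop := fun u v => r u v ∨ (r u (hd e') ∧ r (tl e') v)
  have hnr : nr r' < nr r := nr_lt (fun u v h => Or.inl h) hnew (Or.inr ⟨hrefl _, hrefl _⟩)
  obtain ⟨f, hf⟩ := IH r' hd S (by
      unfold ms
      have h3 : S.card ≤ Fintype.card A := card_le_univ _
      have h4 : (nr r' + 1) * (Fintype.card A + 1) ≤ nr r * (Fintype.card A + 1) :=
        Nat.mul_le_mul_right _ hnr
      rw [add_mul, one_mul] at h4
      omega) (fun v => Or.inl (hrefl v)) (by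
      rintro u v w (h3 | ⟨h3, h4⟩) (h5 | ⟨h5, h6⟩)
      · exact Or.inl (htr _ _ _ h3 h5)
      · exact Or.inr ⟨htr _ _ _ h3 h5, h6⟩
      · exact Or.inr ⟨h3, htr _ _ _ h4 h5⟩
      · exact Or.inr ⟨h3, h6⟩) (fun v => (h2 v).imp Or.inl Or.inl) (fun e'' he'' => Or.inl (hS e'' he''))
    (fun U hU => hcut U ⟨hU.1, hU.2.1, fun u hu v huv => hU.2.2 u hu v (Or.inl huv)⟩)
  apply hnp
  refine ⟨Function.update f e' (if f e = 0 then 1 else 0), ?_⟩
  intro i U hU
  by_cases hup : Up r' U
  · obtain ⟨e'', h3, h4, h5, h6⟩ := hf i U ⟨hU.1, hU.2.1, hup⟩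
    have h7 : e'' ≠ e' := by
      rintro rfl
      exact h5 (hup _ h6 _ (Or.inr ⟨hrefl _, hrefl _⟩))
    exact ⟨e'', h3, by rw [Function.update_of_ne h7]; exact h4, h5, h6⟩
  · unfold Up at hup
    push Not at hup
    obtain ⟨u, hu, v, huv, hv⟩ := hup
    rcases huv with huv | ⟨h3, h4⟩
    · exact absurd (hU.2.2 u hu v huv) hv
    · have m1 : hd e' ∈ U := hU.2.2 u hu _ h3
      have m2 : tl e' ∉ U := fun h => hv (hU.2.2 _ h _ h4)
      have m3 : hd e ∈ U := hU.2.2 _ m1 _ hd2
      have m4 : tl e ∉ U := fun h => m2 (hU.2.2 _ h _ ht2)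
      by_cases hi : f e = i
      · exact ⟨e, he, by rw [Function.update_of_ne hne.symm]; exact hi, m4, m3⟩
      · refine ⟨e', heS', ?_, m2, m1⟩
        rw [Function.update_self]
        revert hi
        generalize f e = c
        revert c i
        decide

/-- **two colours** -/
theorem pack_two (s1 s2 : V) (tl : A → V) : ∀ (m : ℕ) (r : V → V → Prop) (hd : A → V) (S : Finset A),
    ms r S = m → (∀ v, r v v) → (∀ u v w, r u v → r v w → r u w) → (∀ v, r s1 v ∨ r s2 v) →
    (∀ e ∈ S, r (tl e) (hd e)) → (∀ U, Cut r U → 2 ≤ (ent tl hd S U).card) →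
    ∃ f : A → Fin 2, Pk r tl hd S 2 f := by
  classical
  intro m
  induction m using Nat.strong_induction_on with
  | _ m ih =>
    intro r hd S hm hrefl htr h2 hS hcut
    by_cases h12 : r s1 s2
    · refine pack_one hrefl htr (s := s1) (fun v => ?_) hS two_pos hcut
      rcases h2 v with h | h
      · exact h
      · exact htr _ _ _ h12 h
    by_cases h21 : r s2 s1
    · refine pack_one hrefl htr (s := s2) (fun v => ?_) hS two_pos hcut
      rcases h2 v with h | h
      · exact htr _ _ _ h21 h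
      · exact h
    by_contra hnp
    have IH : ∀ (r' : V → V → Prop) (hd' : A → V) (S' : Finset A), ms r' S' < ms r S →
        (∀ v, r' v v) → (∀ u v w, r' u v → r' v w → r' u w) → (∀ v, r' s1 v ∨ r' s2 v) →
        (∀ e ∈ S', r' (tl e) (hd' e)) → (∀ U, Cut r' U → 2 ≤ (ent tl hd' S' U).card) →
        ∃ f : A → Fin 2, Pk r' tl hd' S' 2 f := by
      intro r' hd' S' hlt a b c d e
      exact ih _ (hm ▸ hlt) r' hd' S' rfl a b c d e
    have R1 := root_arcs IH hrefl htr h2 hS hcut hnp
    have R2 := root_arcs (s1 := s2) (s2 := s1) (fun r' hd' S' hlt a b c d e =>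
      IH r' hd' S' hlt a b (fun v => (c v).symm) d e) hrefl htr (fun v => (h2 v).symm) hS hcut hnp
    have big : ∀ s s' : V, ¬ r s' s → 2 ≤ (S.filter fun e => r (tl e) s).card := by
      intro s s' hss
      have hc : Cut r (univ.filter fun v => ¬ r v s) := by
        refine ⟨⟨s', mem_filter.2 ⟨mem_univ _, hss⟩⟩, fun h => ?_, ?_⟩
        · have : s ∈ univ.filter fun v => ¬ r v s := by rw [h]; exact mem_univ s
          exact (mem_filter.1 this).2 (hrefl s)
        · intro u hu v huv
          rw [mem_filter] at hu ⊢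
          exact ⟨mem_univ _, fun h => hu.2 (htr _ _ _ huv h)⟩
      refine (hcut _ hc).trans (card_le_card fun e he => ?_)
      obtain ⟨h3, h4, _⟩ := mem_ent.1 he
      rw [mem_filter]
      refine ⟨h3, ?_⟩
      by_contra h5
      exact h4 (mem_filter.2 ⟨mem_univ _, h5⟩)
    apply hnp
    refine pack_of_many hrefl htr h2 h12 h21 hS two_pos hcut (S.filter fun e => r (tl e) s1)
      (S.filter fun e => r (tl e) s2) ?_ ?_ (big s1 s2 h21) (big s2 s1 h12)
    · intro e he
      rw [mem_filter] at he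
      exact ⟨he.1, he.2, R1 e he.1 he.2⟩
    · intro e he
      rw [mem_filter] at he
      exact ⟨he.1, he.2, R2 e he.1 he.2⟩

end Wood2
end

section
/-!
# `k` colours, at most two roots: exchanging heads
-/
open Finset

namespace Wood2

set_option linter.unusedSectionVars false

variable {V A : Type} [Fintype V] [DecidableEq V] [Fintype A] [DecidableEq A]

/-- the heads of `e1`, `e2` exchanged -/
def sw (hd : A → V) (e1 e2 : A) : A → V := fun e => hd (Equiv.swap e1 e2 e)

theorem sw_left (hd : A → V) (e1 e2 : A) : sw hd e1 e2 e1 = hd e2 := by simp [sw]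

theorem sw_right (hd : A → V) (e1 e2 : A) : sw hd e1 e2 e2 = hd e1 := by simp [sw]

theorem sw_ne (hd : A → V) {e1 e2 e : A} (h1 : e ≠ e1) (h2 : e ≠ e2) : sw hd e1 e2 e = hd e := by
  simp [sw, Equiv.swap_apply_of_ne_of_ne h1 h2]

theorem sw_valid {r : V → V → Prop} {tl hd : A → V} {S : Finset A} (hS : ∀ e ∈ S, r (tl e) (hd e))
    {e1 e2 : A} (h12 : r (tl e1) (hd e2)) (h21 : r (tl e2) (hd e1)) :
    ∀ e ∈ S, r (tl e) (sw hd e1 e2 e) := by
  intro e he
  by_cases h1 : e = e1
  · subst h1; rw [sw_left]; exact h12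
  · by_cases h2 : e = e2
    · subst h2; rw [sw_right]; exact h21
    · rw [sw_ne hd h1 h2]; exact hS e he

theorem ent_sw {r : V → V → Prop} {tl hd : A → V} {H : Finset A} (hH : ∀ e ∈ H, r (tl e) (hd e))
    {e1 e2 : A} (he1 : e1 ∈ H) (he2 : e2 ∈ H) (h12 : r (tl e1) (hd e2)) (h21 : r (tl e2) (hd e1))
    {U : Finset V} (hU : Up r U) : (ent tl (sw hd e1 e2) H U).card = (ent tl hd H U).card := by
  have a1 := card_ent_add (S := H) hH hU
  have a2 := card_ent_add (S := H) (sw_valid hH h12 h21) hU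
  have a3 : (H.filter fun e => sw hd e1 e2 e ∈ U).card = (H.filter fun e => hd e ∈ U).card := by
    refine card_equiv (Equiv.swap e1 e2) fun e => ?_
    rw [mem_filter, mem_filter]
    have : e ∈ H ↔ Equiv.swap e1 e2 e ∈ H := by
      by_cases h1 : e = e1
      · subst h1; simp [he1, he2]
      · by_cases h2 : e = e2
        · subst h2; simp [he1, he2]
        · rw [Equiv.swap_apply_of_ne_of_ne h1 h2]
    rw [this]
    rfl
  omega

/-- exchanging back -/
theorem pack_sw {r : V → V → Prop} (hrefl : ∀ v, r v v) (htr : ∀ u v w, r u v → r v w → r u w)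
    {s1 s2 : V} (h2 : ∀ v, r s1 v ∨ r s2 v) {tl hd : A → V} {S : Finset A}
    (hS : ∀ e ∈ S, r (tl e) (hd e)) {e1 e2 : A} (he1 : e1 ∈ S) (he2 : e2 ∈ S)
    (h12 : r (tl e1) (hd e2)) (h21 : r (tl e2) (hd e1)) {k : ℕ} {f : A → Fin k}
    (hf : Pk r tl (sw hd e1 e2) S k f) : ∃ f : A → Fin k, Pk r tl hd S k f := by
  classical
  by_cases hc : f e1 = f e2
  · refine ⟨f, fun i U hU => ?_⟩
    by_cases hi : f e1 = i
    · let H : Finset A := S.filter fun e => f e = i
      have m1 : e1 ∈ H := mem_filter.2 ⟨he1, hi⟩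
      have m2 : e2 ∈ H := mem_filter.2 ⟨he2, hc ▸ hi⟩
      have h3 := ent_sw (H := H) (fun e he => hS e (mem_filter.1 he).1) m1 m2 h12 h21 hU.2.2
      obtain ⟨e, he, h4, h5⟩ := hf i U hU
      have h6 : 0 < (ent tl (sw hd e1 e2) H U).card :=
        card_pos.2 ⟨e, mem_ent.2 ⟨mem_filter.2 ⟨he, h4⟩, h5⟩⟩
      rw [h3] at h6
      obtain ⟨e', he'⟩ := card_pos.1 h6
      obtain ⟨h7, h8⟩ := mem_ent.1 he'
      exact ⟨e', (mem_filter.1 h7).1, (mem_filter.1 h7).2, h8⟩
    · obtain ⟨e, he, h4, h5, h6⟩ := hf i U hU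
      have n1 : e ≠ e1 := fun h => hi (h ▸ h4)
      have n2 : e ≠ e2 := fun h => hi (by rw [hc, ← h, h4])
      rw [sw_ne hd n1 n2] at h6
      exact ⟨e, he, h4, h5, h6⟩
  · let H : Finset A := S.filter fun e => f e = f e1 ∨ f e = f e2
    have m1 : e1 ∈ H := mem_filter.2 ⟨he1, Or.inl rfl⟩
    have m2 : e2 ∈ H := mem_filter.2 ⟨he2, Or.inr rfl⟩
    have hH : ∀ e ∈ H, r (tl e) (hd e) := fun e he => hS e (mem_filter.1 he).1
    obtain ⟨g, hg⟩ := pack_two s1 s2 tl _ r hd H rfl hrefl htr h2 hH (by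
      intro U hU
      rw [← ent_sw (H := H) hH m1 m2 h12 h21 hU.2.2]
      obtain ⟨a, ha, ha1, ha2⟩ := hf (f e1) U hU
      obtain ⟨b, hb, hb1, hb2⟩ := hf (f e2) U hU
      have hne : a ≠ b := fun h => hc (by rw [← ha1, ← hb1, h])
      rw [← card_pair hne]
      refine card_le_card fun x hx => ?_
      rw [mem_insert, mem_singleton] at hx
      rcases hx with rfl | rfl
      · exact mem_ent.2 ⟨mem_filter.2 ⟨ha, Or.inl ha1⟩, ha2⟩
      · exact mem_ent.2 ⟨mem_filter.2 ⟨hb, Or.inr hb1⟩, hb2⟩)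
    refine ⟨fun e => if e ∈ H then (if g e = 0 then f e1 else f e2) else f e, fun i U hU => ?_⟩
    by_cases hi1 : i = f e1
    · obtain ⟨e, he, h4, h5⟩ := hg 0 U hU
      refine ⟨e, (mem_filter.1 he).1, ?_, h5⟩
      simp only [if_pos he, h4, hi1, if_true]
    · by_cases hi2 : i = f e2
      · obtain ⟨e, he, h4, h5⟩ := hg 1 U hU
        refine ⟨e, (mem_filter.1 he).1, ?_, h5⟩
        simp only [if_pos he, h4, hi2]
        exact if_neg (by decide)
      · obtain ⟨e, he, h4, h5, h6⟩ := hf i U hU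
        have n1 : e ≠ e1 := fun h => hi1 (by rw [← h4, h])
        have n2 : e ≠ e2 := fun h => hi2 (by rw [← h4, h])
        rw [sw_ne hd n1 n2] at h6
        refine ⟨e, he, ?_, h5, h6⟩
        have hn : e ∉ H := by
          intro h
          rcases (mem_filter.1 h).2 with h | h
          · exact hi1 (h4.symm.trans h)
          · exact hi2 (h4.symm.trans h)
        simp only [if_neg hn]
        exact h4

/-- the vertices from which an exit to the vertices above `s2` can be reached -/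
def Gn (r : V → V → Prop) (s1 s2 : V) (tl hd : A → V) (S : Finset A) : ℕ → V → Prop
  | 0, v => r s2 v
  | n + 1, v => Gn r s1 s2 tl hd S n v ∨
      ∃ e ∈ S, r (tl e) v ∧ ¬ r (tl e) s1 ∧ Gn r s1 s2 tl hd S n (hd e)

theorem Gn_mono {r : V → V → Prop} {s1 s2 : V} {tl hd : A → V} {S : Finset A} {m n : ℕ} (h : m ≤ n)
    {v : V} (hv : Gn r s1 s2 tl hd S m v) : Gn r s1 s2 tl hd S n v := by
  induction n with
  | zero =>
    have : m = 0 := by omega
    subst this
    exact hv
  | succ n ih =>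
    by_cases hm : m = n + 1
    · subst hm; exact hv
    · exact Or.inl (ih (by omega))

theorem Gn_up {r : V → V → Prop} (htr : ∀ u v w, r u v → r v w → r u w) {s1 s2 : V} {tl hd : A → V}
    {S : Finset A} {n : ℕ} {v w : V} (hvw : r v w) (hv : Gn r s1 s2 tl hd S n v) :
    Gn r s1 s2 tl hd S n w := by
  induction n with
  | zero => exact htr _ _ _ hv hvw
  | succ n ih =>
    rcases hv with hv | ⟨e, he, h1, h2⟩
    · exact Or.inl (ih hv)
    · exact Or.inr ⟨e, he, htr _ _ _ h1 hvw, h2⟩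

/-- the arcs from the class of `s` to vertices above `s'` -/
noncomputable def OO (r : V → V → Prop) (s s' : V) (tl hd : A → V) (S : Finset A) : Finset A := by
  classical
  exact S.filter fun e => r (tl e) s ∧ r s' (hd e)

theorem mem_OO {r : V → V → Prop} {s s' : V} {tl hd : A → V} {S : Finset A} {e : A} :
    e ∈ OO r s s' tl hd S ↔ e ∈ S ∧ r (tl e) s ∧ r s' (hd e) := by
  classical
  unfold OO
  rw [mem_filter]

/-- an arc which can be moved to an exit -/
theorem exists_start {r : V → V → Prop} (hrefl : ∀ v, r v v) (htr : ∀ u v w, r u v → r v w → r u w)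
    {s1 s2 : V} (h21 : ¬ r s2 s1) {tl hd : A → V} {S : Finset A} {k : ℕ}
    (hcut : ∀ U, Cut r U → k ≤ (ent tl hd S U).card) (hlt : (OO r s1 s2 tl hd S).card < k) :
    ∃ e ∈ S, ∃ n, r (tl e) s1 ∧ ¬ r s2 (hd e) ∧ Gn r s1 s2 tl hd S n (hd e) := by
  classical
  let Gs : Finset V := univ.filter fun v => ∃ n, Gn r s1 s2 tl hd S n v
  have hs1 : ∀ n, ¬ Gn r s1 s2 tl hd S n s1 := by
    intro n
    induction n with
    | zero => exact h21
    | succ n ih =>
      rintro (h | ⟨e, _, h1, h2, _⟩)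
      · exact ih h
      · exact h2 h1
  have hc : Cut r Gs := by
    refine ⟨⟨s2, mem_filter.2 ⟨mem_univ _, 0, hrefl _⟩⟩, fun h => ?_, ?_⟩
    · have : s1 ∈ Gs := h ▸ mem_univ s1
      obtain ⟨n, hn⟩ := (mem_filter.1 this).2
      exact hs1 n hn
    · intro u hu v huv
      obtain ⟨n, hn⟩ := (mem_filter.1 hu).2
      exact mem_filter.2 ⟨mem_univ _, n, Gn_up htr huv hn⟩
  obtain ⟨e, he, heO⟩ := exists_mem_notMem_of_card_lt_card (lt_of_lt_of_le hlt (hcut Gs hc))
  obtain ⟨h1, h3, h4⟩ := mem_ent.1 he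
  obtain ⟨n, hn⟩ := (mem_filter.1 h4).2
  have h5 : r (tl e) s1 := by
    by_contra h6
    exact h3 (mem_filter.2 ⟨mem_univ _, n + 1, Or.inr ⟨e, h1, hrefl _, h6, hn⟩⟩)
  exact ⟨e, h1, n, h5, fun h6 => heO (mem_OO.2 ⟨h1, h5, h6⟩), hn⟩

/-- one more arc from `s1` to the vertices above `s2` -/
theorem chain {r : V → V → Prop} (hrefl : ∀ v, r v v) (htr : ∀ u v w, r u v → r v w → r u w)
    {s1 s2 : V} (h2 : ∀ v, r s1 v ∨ r s2 v) (h12 : ¬ r s1 s2) (h21 : ¬ r s2 s1) {tl : A → V}
    {S : Finset A} {k : ℕ} : ∀ (n : ℕ) (hd : A → V), (∀ e ∈ S, r (tl e) (hd e)) →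
    (∀ U, Cut r U → k ≤ (ent tl hd S U).card) → ∀ e1 ∈ S, r (tl e1) s1 → ¬ r s2 (hd e1) →
    Gn r s1 s2 tl hd S n (hd e1) →
    ∃ hd' : A → V, (∀ e ∈ S, r (tl e) (hd' e)) ∧ (∀ U, Cut r U → k ≤ (ent tl hd' S U).card) ∧
      (OO r s1 s2 tl hd' S).card = (OO r s1 s2 tl hd S).card + 1 ∧
      (OO r s2 s1 tl hd' S).card = (OO r s2 s1 tl hd S).card ∧
      ((∃ f : A → Fin k, Pk r tl hd' S k f) → ∃ f : A → Fin k, Pk r tl hd S k f) := by
  classical
  intro n
  induction n with
  | zero =>
    intro hd hS hcut e1 he1 ht hh hG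
    exact absurd hG hh
  | succ n ih =>
    intro hd hS hcut e1 he1 ht hh hG
    by_cases hGn : Gn r s1 s2 tl hd S n (hd e1)
    · exact ih hd hS hcut e1 he1 ht hh hGn
    obtain ⟨e2, he2, hq, hqs, hy⟩ : ∃ e ∈ S, r (tl e) (hd e1) ∧ ¬ r (tl e) s1 ∧
        Gn r s1 s2 tl hd S n (hd e) := by
      rcases hG with h | h
      · exact absurd h hGn
      · exact h
    have hs1q : r s1 (tl e2) := by
      rcases h2 (tl e2) with h | h
      · exact h
      · exact absurd (htr _ _ _ h hq) hh
    have hab : r (tl e1) (hd e2) := htr _ _ _ ht (htr _ _ _ hs1q (hS e2 he2))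
    have hne : e1 ≠ e2 := fun h => hqs (h ▸ ht)
    have hv' := sw_valid hS hab hq
    have hc' : ∀ U, Cut r U → k ≤ (ent tl (sw hd e1 e2) S U).card := fun U hU => by
      rw [ent_sw hS he1 he2 hab hq hU.2.2]
      exact hcut U hU
    have hO2 : OO r s2 s1 tl (sw hd e1 e2) S = OO r s2 s1 tl hd S := by
      ext e
      rw [mem_OO, mem_OO]
      by_cases h1 : e = e1
      · subst h1
        have hn : ¬ r (tl e) s2 := by
          intro h
          rcases h2 (tl e) with h3 | h3
          · exact h12 (htr _ _ _ h3 h)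
          · exact h21 (htr _ _ _ h3 ht)
        simp [hn]
      · by_cases h3 : e = e2
        · subst h3
          have hn : ¬ r (tl e) s2 := fun h => h12 (htr _ _ _ hs1q h)
          simp [hn]
        · rw [sw_ne hd h1 h3]
    have hlift : (∃ f : A → Fin k, Pk r tl (sw hd e1 e2) S k f) → ∃ f : A → Fin k, Pk r tl hd S k f := by
      rintro ⟨f, hf⟩
      exact pack_sw hrefl htr h2 hS he1 he2 hab hq hf
    have hmem2 : e2 ∉ OO r s1 s2 tl hd S := fun h => hqs (mem_OO.1 h).2.1
    have hmem2' : e2 ∉ OO r s1 s2 tl (sw hd e1 e2) S := fun h => hqs (mem_OO.1 h).2.1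
    have hmem1 : e1 ∉ OO r s1 s2 tl hd S := fun h => hh (mem_OO.1 h).2.2
    by_cases hys : r s2 (hd e2)
    · refine ⟨sw hd e1 e2, hv', hc', ?_, by rw [hO2], hlift⟩
      have : OO r s1 s2 tl (sw hd e1 e2) S = insert e1 (OO r s1 s2 tl hd S) := by
        ext e
        rw [mem_insert]
        by_cases h1 : e = e1
        · subst h1
          rw [mem_OO, sw_left]
          simp [he1, ht, hys]
        · by_cases h3 : e = e2
          · subst h3
            constructor
            · exact fun h => absurd h hmem2'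
            · rintro (h | h)
              · exact absurd h h1
              · exact absurd h hmem2
          · rw [mem_OO, mem_OO, sw_ne hd h1 h3]
            simp [h1]
      rw [this, card_insert_of_notMem hmem1]
    · -- the chain below `hd e2` is unchanged
      have hex : ∃ m, Gn r s1 s2 tl hd S m (hd e2) := ⟨n, hy⟩
      set m := Nat.find hex with hm
      have hmn : m ≤ n := Nat.find_min' hex hy
      have hmy : Gn r s1 s2 tl hd S m (hd e2) := Nat.find_spec hex
      have hmlt : ∀ j, j < m → ¬ Gn r s1 s2 tl hd S j (hd e2) := fun j hj => Nat.find_min hex hj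
      have hG' : ∀ j, j ≤ m → ∀ v, Gn r s1 s2 tl hd S j v → Gn r s1 s2 tl (sw hd e1 e2) S j v := by
        intro j
        induction j with
        | zero => exact fun _ v h => h
        | succ j ihj =>
          intro hj v hv
          rcases hv with hv | ⟨e, he, h3, h4, h5⟩
          · exact Or.inl (ihj (by omega) v hv)
          · have n1 : e ≠ e1 := fun h => h4 (h ▸ ht)
            have n2 : e ≠ e2 := fun h => hmlt j (by omega) (h ▸ h5)
            refine Or.inr ⟨e, he, h3, h4, ?_⟩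
            rw [sw_ne hd n1 n2]
            exact ihj (by omega) _ h5
      obtain ⟨hd', a, b, c, d, g⟩ := ih (sw hd e1 e2) hv' hc' e1 he1 ht (by rw [sw_left]; exact hys)
        (by rw [sw_left]; exact Gn_mono hmn (hG' m le_rfl _ hmy))
      refine ⟨hd', a, b, ?_, by rw [d, hO2], fun h => hlift (g h)⟩
      rw [c]
      congr 2
      ext e
      by_cases h1 : e = e1
      · subst h1
        constructor
        · intro h
          have := (mem_OO.1 h).2.2
          rw [sw_left] at this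
          exact absurd this hys
        · exact fun h => absurd h hmem1
      · by_cases h3 : e = e2
        · subst h3
          exact ⟨fun h => absurd h hmem2', fun h => absurd h hmem2⟩
        · rw [mem_OO, mem_OO, sw_ne hd h1 h3]

/-- **`k` colours** -/
theorem pack_all {r : V → V → Prop} (hrefl : ∀ v, r v v) (htr : ∀ u v w, r u v → r v w → r u w)
    {s1 s2 : V} (h2 : ∀ v, r s1 v ∨ r s2 v) {tl : A → V} {S : Finset A} {k : ℕ} (hk : 0 < k)
    (hd : A → V) (hS : ∀ e ∈ S, r (tl e) (hd e)) (hcut : ∀ U, Cut r U → k ≤ (ent tl hd S U).card) :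
    ∃ f : A → Fin k, Pk r tl hd S k f := by
  by_cases h12 : r s1 s2
  · refine pack_one hrefl htr (s := s1) (fun v => ?_) hS hk hcut
    rcases h2 v with h | h
    · exact h
    · exact htr _ _ _ h12 h
  by_cases h21 : r s2 s1
  · refine pack_one hrefl htr (s := s2) (fun v => ?_) hS hk hcut
    rcases h2 v with h | h
    · exact htr _ _ _ h21 h
    · exact h
  have key : ∀ (m : ℕ) (hd : A → V), (∀ e ∈ S, r (tl e) (hd e)) →
      (∀ U, Cut r U → k ≤ (ent tl hd S U).card) →
      (k - (OO r s1 s2 tl hd S).card) + (k - (OO r s2 s1 tl hd S).card) = m →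
      ∃ f : A → Fin k, Pk r tl hd S k f := by
    intro m
    induction m with
    | zero =>
      intro hd hS hcut hm
      refine pack_of_many hrefl htr h2 h12 h21 hS hk hcut (OO r s1 s2 tl hd S) (OO r s2 s1 tl hd S)
        (fun e he => mem_OO.1 he) (fun e he => mem_OO.1 he) (by omega) (by omega)
    | succ m ih =>
      intro hd hS hcut hm
      by_cases h1 : (OO r s1 s2 tl hd S).card < k
      · obtain ⟨e, he, n, a, b, c⟩ := exists_start hrefl htr h21 hcut h1
        obtain ⟨hd', p, q, x, y, z⟩ := chain hrefl htr h2 h12 h21 n hd hS hcut e he a b c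
        exact z (ih hd' p q (by omega))
      · have h3 : (OO r s2 s1 tl hd S).card < k := by omega
        obtain ⟨e, he, n, a, b, c⟩ := exists_start hrefl htr h12 hcut h3
        obtain ⟨hd', p, q, x, y, z⟩ := chain hrefl htr (fun v => (h2 v).symm) h21 h12 n hd hS hcut e he a b c
        exact z (ih hd' p q (by omega))
  exact key _ hd hS hcut rfl

end Wood2
end

section
/-!
# Digraphs with at most two source components
-/
open Finset

namespace Wood2

set_option linter.unusedSectionVars false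

variable {V A : Type} [Fintype V] [Fintype A]

/-- a path which enters `U` -/
theorem exists_enter {tl hd : A → V} {U : Set V} {u v : V}
    (h : Relation.ReflTransGen (fun x y => ∃ a, tl a = x ∧ hd a = y) u v) (hu : u ∉ U) (hv : v ∈ U) :
    ∃ a, tl a ∉ U ∧ hd a ∈ U := by
  induction h with
  | refl => exact absurd hv hu
  | @tail y z _ hyz ih =>
    by_cases hy : y ∈ U
    · exact ih hy
    · obtain ⟨a, h1, h2⟩ := hyz
      exact ⟨a, h1 ▸ hy, h2 ▸ hv⟩

theorem closed_reach {tl hd : A → V} {U : Set V} (hU : ∀ a, tl a ∈ U → hd a ∈ U) {u v : V}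
    (h : Relation.ReflTransGen (fun x y => ∃ a, tl a = x ∧ hd a = y) u v) (hu : u ∈ U) : v ∈ U := by
  induction h with
  | refl => exact hu
  | @tail y z _ hyz ih =>
    obtain ⟨a, h1, h2⟩ := hyz
    exact h2 ▸ hU a (h1 ▸ ih)

/-- at most two source components -/
theorem source_case (tl hd : A → V) (S : Set A) (k : ℕ) {s1 s2 : V}
    (h2 : ∀ v, Relation.ReflTransGen (fun x y => ∃ a, tl a = x ∧ hd a = y) s1 v ∨
      Relation.ReflTransGen (fun x y => ∃ a, tl a = x ∧ hd a = y) s2 v)
    (hcut : ∀ U : Set V, (∀ a, tl a ∈ U → hd a ∈ U) → (∃ a, tl a ∉ U ∧ hd a ∈ U) →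
      k ≤ {a ∈ S | tl a ∉ U ∧ hd a ∈ U}.ncard) :
    ∃ J : Fin k → Set A, (∀ i, J i ⊆ S) ∧ (∀ i j, i ≠ j → Disjoint (J i) (J j)) ∧
      ∀ i, ∀ U : Set V, (∀ a, tl a ∈ U → hd a ∈ U) → (∃ a, tl a ∉ U ∧ hd a ∈ U) →
        ∃ a ∈ J i, tl a ∉ U ∧ hd a ∈ U := by
  classical
  rcases Nat.eq_zero_or_pos k with rfl | hk
  · exact ⟨fun _ => ∅, fun i => i.elim0, fun i => i.elim0, fun i => i.elim0⟩
  set r : V → V → Prop := Relation.ReflTransGen (fun x y => ∃ a, tl a = x ∧ hd a = y) with hr
  have hrefl : ∀ v, r v v := fun v => Relation.ReflTransGen.refl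
  have htr : ∀ u v w, r u v → r v w → r u w := fun u v w h h' => Relation.ReflTransGen.trans h h'
  have harc : ∀ a, r (tl a) (hd a) := fun a => Relation.ReflTransGen.single ⟨a, rfl, rfl⟩
  let S' : Finset A := univ.filter fun a => a ∈ S
  have hS : ∀ e ∈ S', r (tl e) (hd e) := fun e _ => harc e
  -- counting
  have hcard : ∀ U : Finset V, {a ∈ S | tl a ∉ (U : Set V) ∧ hd a ∈ (U : Set V)}.ncard =
      (ent tl hd S' U).card := by
    intro U
    rw [← Set.ncard_coe_finset]
    congr 1
    ext a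
    simp only [Set.mem_ofPred_eq, mem_coe, mem_ent, S', mem_filter, mem_univ, true_and]
  have hup : ∀ U : Finset V, Up r U → ∀ a, tl a ∈ (U : Set V) → hd a ∈ (U : Set V) :=
    fun U hU a ha => hU _ (mem_coe.1 ha) _ (harc a)
  have hfin : (∃ f : A → Fin k, ∀ i, ∀ U : Finset V, Up r U → (∃ a, tl a ∉ U ∧ hd a ∈ U) →
      ∃ e ∈ S', f e = i ∧ tl e ∉ U ∧ hd e ∈ U) →
      ∃ J : Fin k → Set A, (∀ i, J i ⊆ S) ∧ (∀ i j, i ≠ j → Disjoint (J i) (J j)) ∧
      ∀ i, ∀ U : Set V, (∀ a, tl a ∈ U → hd a ∈ U) → (∃ a, tl a ∉ U ∧ hd a ∈ U) →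
        ∃ a ∈ J i, tl a ∉ U ∧ hd a ∈ U := by
    rintro ⟨f, hf⟩
    refine ⟨fun i => {a | a ∈ S ∧ f a = i}, fun i a ha => ha.1, ?_, ?_⟩
    · intro i j hij
      rw [Set.disjoint_left]
      rintro a ⟨_, h1⟩ ⟨_, h3⟩
      exact hij (h1.symm.trans h3)
    · intro i U hU hne
      obtain ⟨e, he, h1, h3, h4⟩ := hf i U.toFinset (fun u hu v huv => by
        rw [Set.mem_toFinset] at hu ⊢
        exact closed_reach hU huv hu) (by
        obtain ⟨a, ha1, ha2⟩ := hne
        exact ⟨a, by rw [Set.mem_toFinset]; exact ha1, by rw [Set.mem_toFinset]; exact ha2⟩)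
      rw [Set.mem_toFinset] at h3 h4
      exact ⟨e, ⟨(mem_filter.1 he).2, h1⟩, h3, h4⟩
  apply hfin
  by_cases hconn : ∀ U, Cut r U → ∃ a, tl a ∉ U ∧ hd a ∈ U
  · obtain ⟨f, hf⟩ := pack_all hrefl htr h2 hk hd hS (fun U hU => by
      rw [← hcard U]
      refine hcut _ (hup U hU.2.2) ?_
      obtain ⟨a, ha1, ha2⟩ := hconn U hU
      exact ⟨a, by rw [mem_coe]; exact ha1, by rw [mem_coe]; exact ha2⟩)
    refine ⟨f, fun i U hU hne => hf i U ⟨?_, ?_, hU⟩⟩
    · obtain ⟨a, _, ha2⟩ := hne
      exact ⟨_, ha2⟩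
    · rintro rfl
      obtain ⟨a, ha1, _⟩ := hne
      exact ha1 (mem_univ _)
  · -- the digraph is not connected
    push Not at hconn
    obtain ⟨U0, hU0, hno⟩ := hconn
    let Rt : Finset V := univ.filter fun v => r v s1 ∨ r v s2
    have hRt : Dn r Rt := by
      intro u hu v hvu
      rw [mem_filter] at hu ⊢
      exact ⟨mem_univ _, hu.2.imp (htr _ _ _ hvu) (htr _ _ _ hvu)⟩
    have hs1 : s1 ∈ Rt := mem_filter.2 ⟨mem_univ _, Or.inl (hrefl _)⟩
    have hs2 : s2 ∈ Rt := mem_filter.2 ⟨mem_univ _, Or.inr (hrefl _)⟩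
    have hen : ∀ U, Fam r Rt U → ∃ a, tl a ∉ U ∧ hd a ∈ U := by
      intro U hU
      obtain ⟨v, hv⟩ := hU.1
      have n1 : s1 ∉ U := Finset.disjoint_right.1 hU.2.2 hs1
      have n2 : s2 ∉ U := Finset.disjoint_right.1 hU.2.2 hs2
      rcases h2 v with h | h
      · obtain ⟨a, ha1, ha2⟩ := exists_enter (U := (U : Set V)) h (by rwa [mem_coe]) (by rwa [mem_coe])
        exact ⟨a, by rwa [mem_coe] at ha1, by rwa [mem_coe] at ha2⟩
      · obtain ⟨a, ha1, ha2⟩ := exists_enter (U := (U : Set V)) h (by rwa [mem_coe]) (by rwa [mem_coe])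
        exact ⟨a, by rwa [mem_coe] at ha1, by rwa [mem_coe] at ha2⟩
    have : Nonempty (Fin k) := ⟨⟨0, hk⟩⟩
    obtain ⟨f, hf⟩ := edmonds (C := Fin k) hrefl htr (Rt := Rt) (tl := tl) (hd := hd) _ S'
      (fun _ => Rt) rfl hS (fun _ => hRt) (fun _ => Subset.refl _) (by
        intro U hU
        refine le_trans ((card_le_univ _).trans (by simp)) (?_ : k ≤ _)
        rw [← hcard U]
        refine hcut _ (hup U hU.2.1) ?_
        obtain ⟨a, ha1, ha2⟩ := hen U hU
        exact ⟨a, by rw [mem_coe]; exact ha1, by rw [mem_coe]; exact ha2⟩)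
    have hF : ∀ U, U.Nonempty → Up r U → s1 ∉ U → s2 ∉ U → Fam r Rt U := by
      intro U hne hU n1 n2
      refine ⟨hne, hU, ?_⟩
      rw [Finset.disjoint_left]
      intro v hv hv'
      rcases (mem_filter.1 hv').2 with h | h
      · exact n1 (hU _ hv _ h)
      · exact n2 (hU _ hv _ h)
    have hboth : ∀ U, Up r U → s1 ∈ U → s2 ∈ U → U = univ := by
      intro U hU m1 m2
      rw [eq_univ_iff_forall]
      intro v
      rcases h2 v with h | h
      · exact hU _ m1 _ h
      · exact hU _ m2 _ h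
    -- no arcs between `U0` and its complement
    have hno' : ∀ a, hd a ∈ U0 → tl a ∈ U0 := fun a ha => by
      by_contra h
      exact hno a h ha
    have hnoc : ∀ a, tl a ∈ U0 → hd a ∈ U0 := fun a ha => hU0.2.2 _ ha _ (harc a)
    have hUc : Up r U0ᶜ := by
      intro u hu v huv
      rw [mem_compl] at hu ⊢
      intro hv
      obtain ⟨a, ha1, ha2⟩ := exists_enter (U := (U0 : Set V)) huv (by rwa [mem_coe]) (by rwa [mem_coe])
      exact hno a (by rwa [mem_coe] at ha1) (by rwa [mem_coe] at ha2)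
    -- a separating set for `s ∈ W`, `s' ∉ W`
    have key : ∀ (s s' : V) (W : Finset V), (∀ v, r s v ∨ r s' v) → (s = s1 ∧ s' = s2 ∨ s = s2 ∧ s' = s1) →
        (∀ a, hd a ∈ W ↔ tl a ∈ W) → Up r W → Up r Wᶜ → s ∈ W → s' ∉ W →
        ∀ i U, Up r U → (∃ a, tl a ∉ U ∧ hd a ∈ U) → s ∈ U → s' ∉ U →
        ∃ e ∈ S', f e = i ∧ tl e ∉ U ∧ hd e ∈ U := by
      intro s s' W hss hcase hWa hW hWc hsW hsW' i U hU hne hsU hsU'
      have hWU : W ⊆ U := by
        intro v hv
        rcases hss v with h | h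
        · exact hU _ hsU _ h
        · exact absurd hv (mem_compl.1 (hWc _ (mem_compl.2 hsW') _ h))
      obtain ⟨a, ha1, ha2⟩ := hne
      have haW : hd a ∉ W := fun h => ha1 (hWU ((hWa a).1 h))
      have hI : Up r (U ∩ Wᶜ) := hU.inter hWc
      have n1 : s1 ∉ U ∩ Wᶜ := by
        rcases hcase with ⟨h, h'⟩ | ⟨h, h'⟩
        · rw [← h]; exact fun h3 => (mem_compl.1 (mem_inter.1 h3).2) hsW
        · rw [← h']; exact fun h3 => hsU' (mem_inter.1 h3).1
      have n2 : s2 ∉ U ∩ Wᶜ := by
        rcases hcase with ⟨h, h'⟩ | ⟨h, h'⟩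
        · rw [← h']; exact fun h3 => hsU' (mem_inter.1 h3).1
        · rw [← h]; exact fun h3 => (mem_compl.1 (mem_inter.1 h3).2) hsW
      have hFI := hF _ ⟨hd a, mem_inter.2 ⟨ha2, mem_compl.2 haW⟩⟩ hI n1 n2
      obtain ⟨e, he, h1, h3, h4⟩ := hf i _ hFI hFI.2.2
      refine ⟨e, he, h1, fun h5 => h3 ?_, (mem_inter.1 h4).1⟩
      refine mem_inter.2 ⟨h5, mem_compl.2 fun h6 => ?_⟩
      exact (mem_compl.1 (mem_inter.1 h4).2) ((hWa e).2 h6)
    have hU0a : ∀ a, hd a ∈ U0 ↔ tl a ∈ U0 := fun a => ⟨hno' a, hnoc a⟩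
    have hU0b : ∀ a, hd a ∈ U0ᶜ ↔ tl a ∈ U0ᶜ := fun a => by
      rw [mem_compl, mem_compl, hU0a a]
    refine ⟨f, fun i U hU hne => ?_⟩
    by_cases m1 : s1 ∈ U
    · by_cases m2 : s2 ∈ U
      · exfalso
        obtain ⟨a, ha1, _⟩ := hne
        rw [hboth U hU m1 m2] at ha1
        exact ha1 (mem_univ _)
      · by_cases k1 : s1 ∈ U0
        · have k2 : s2 ∉ U0 := fun h => hU0.2.1 (hboth U0 hU0.2.2 k1 h)
          exact key s1 s2 U0 h2 (Or.inl ⟨rfl, rfl⟩) hU0a hU0.2.2 hUc k1 k2 i U hU hne m1 m2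
        · have k2 : s2 ∈ U0 := by
            by_contra h
            obtain ⟨a, ha1, ha2⟩ := hen U0 (hF U0 hU0.1 hU0.2.2 k1 h)
            exact hno a ha1 ha2
          exact key s1 s2 U0ᶜ h2 (Or.inl ⟨rfl, rfl⟩) hU0b hUc (by rw [compl_compl]; exact hU0.2.2)
            (mem_compl.2 k1) (fun h => (mem_compl.1 h) k2) i U hU hne m1 m2
    · by_cases m2 : s2 ∈ U
      · by_cases k2 : s2 ∈ U0
        · have k1 : s1 ∉ U0 := fun h => hU0.2.1 (hboth U0 hU0.2.2 h k2)
          exact key s2 s1 U0 (fun v => (h2 v).symm) (Or.inr ⟨rfl, rfl⟩) hU0a hU0.2.2 hUc k2 k1 i U hU hne m2 m1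
        · have k1 : s1 ∈ U0 := by
            by_contra h
            obtain ⟨a, ha1, ha2⟩ := hen U0 (hF U0 hU0.1 hU0.2.2 h k2)
            exact hno a ha1 ha2
          exact key s2 s1 U0ᶜ (fun v => (h2 v).symm) (Or.inr ⟨rfl, rfl⟩) hU0b hUc
            (by rw [compl_compl]; exact hU0.2.2)
            (mem_compl.2 k2) (fun h => (mem_compl.1 h) k1) i U hU hne m2 m1
      · have hne' : U.Nonempty := by
          obtain ⟨a, _, ha2⟩ := hne
          exact ⟨_, ha2⟩
        have hFU := hF U hne' hU m1 m2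
        exact hf i U hFU hFU.2.2

/-- reversing arcs and reachability -/
theorem reach_rev {tl hd : A → V} {u v : V}
    (h : Relation.ReflTransGen (fun x y => ∃ a, tl a = x ∧ hd a = y) u v) :
    Relation.ReflTransGen (fun x y => ∃ a, hd a = x ∧ tl a = y) v u := by
  induction h with
  | refl => exact Relation.ReflTransGen.refl
  | @tail y z _ hyz ih =>
    obtain ⟨a, h1, h2⟩ := hyz
    exact Relation.ReflTransGen.trans (Relation.ReflTransGen.single ⟨a, h2, h1⟩) ih

/-- at most two source components or at most two sink components -/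
theorem main_two (tl hd : A → V) (S : Set A) (k : ℕ)
    (h2 : (∃ s1 s2, ∀ v, Relation.ReflTransGen (fun x y => ∃ a, tl a = x ∧ hd a = y) s1 v ∨
        Relation.ReflTransGen (fun x y => ∃ a, tl a = x ∧ hd a = y) s2 v) ∨
      (∃ t1 t2, ∀ v, Relation.ReflTransGen (fun x y => ∃ a, tl a = x ∧ hd a = y) v t1 ∨
        Relation.ReflTransGen (fun x y => ∃ a, tl a = x ∧ hd a = y) v t2))
    (hcut : ∀ U : Set V, (∀ a, tl a ∈ U → hd a ∈ U) → (∃ a, tl a ∉ U ∧ hd a ∈ U) →
      k ≤ {a ∈ S | tl a ∉ U ∧ hd a ∈ U}.ncard) :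
    ∃ J : Fin k → Set A, (∀ i, J i ⊆ S) ∧ (∀ i j, i ≠ j → Disjoint (J i) (J j)) ∧
      ∀ i, ∀ U : Set V, (∀ a, tl a ∈ U → hd a ∈ U) → (∃ a, tl a ∉ U ∧ hd a ∈ U) →
        ∃ a ∈ J i, tl a ∉ U ∧ hd a ∈ U := by
  rcases h2 with ⟨s1, s2, h⟩ | ⟨t1, t2, h⟩
  · exact source_case tl hd S k h hcut
  · obtain ⟨J, h1, h3, h4⟩ := source_case hd tl S k (s1 := t1) (s2 := t2) (fun v => (h v).imp reach_rev reach_rev) (fun U hU hne => by
      have h5 := hcut Uᶜ (fun a ha => by
        rw [Set.mem_compl_iff] at ha ⊢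
        exact fun h => ha (hU a h)) (by
        obtain ⟨a, ha1, ha2⟩ := hne
        exact ⟨a, by rw [Set.mem_compl_iff, not_not]; exact ha2, ha1⟩)
      refine h5.trans (le_of_eq ?_)
      congr 1
      ext a
      simp only [Set.mem_ofPred_eq, Set.mem_compl_iff, not_not]
      tauto)
    refine ⟨J, h1, h3, fun i U hU hne => ?_⟩
    obtain ⟨a, ha, h5, h6⟩ := h4 i Uᶜ (fun a ha => by
      rw [Set.mem_compl_iff] at ha ⊢
      exact fun h => ha (hU a h)) (by
      obtain ⟨a, ha1, ha2⟩ := hne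
      exact ⟨a, by rw [Set.mem_compl_iff, not_not]; exact ha2, ha1⟩)
    rw [Set.mem_compl_iff, not_not] at h5
    exact ⟨a, ha, h6, h5⟩

end Wood2
end
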