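import Mathlib

/-!
# MP_492a9e_co (Woodall), digraphs with at most two source components: base (helper88)

`r` is a preorder (reachability) on a finite type `V`; arcs are the elements of a finite type `A` with tail `tl` and
head `hd`; `S` is a finite set of arcs with `r (tl e) (hd e)`.  Cuts are nonempty proper up-sets `U`; `ent` = the arcs
of `S` entering `U`.
-/

open Finset

namespace Wood2

set_option linter.unusedSectionVars false

variable {V A : Type} [DecidableEq V] [DecidableEq A]

/-- up-sets -/
def Up (r : V → V → Prop) (U : Finset V) : Prop := ∀ u ∈ U, ∀ v, r u v → v ∈ U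

/-- down-sets -/
def Dn (r : V → V → Prop) (U : Finset V) : Prop := ∀ u ∈ U, ∀ v, r v u → v ∈ U

/-- the arcs of `S` entering `U` -/
def ent (tl hd : A → V) (S : Finset A) (U : Finset V) : Finset A :=
  S.filter fun e => tl e ∉ U ∧ hd e ∈ U

theorem mem_ent {tl hd : A → V} {S : Finset A} {U : Finset V} {e : A} :
    e ∈ ent tl hd S U ↔ e ∈ S ∧ tl e ∉ U ∧ hd e ∈ U := mem_filter

theorem Up.inter {r : V → V → Prop} {U W : Finset V} (hU : Up r U) (hW : Up r W) : Up r (U ∩ W) := by
  intro u hu v huv
  rw [mem_inter] at hu ⊢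
  exact ⟨hU u hu.1 v huv, hW u hu.2 v huv⟩

theorem Up.union {r : V → V → Prop} {U W : Finset V} (hU : Up r U) (hW : Up r W) : Up r (U ∪ W) := by
  intro u hu v huv
  rw [mem_union] at hu ⊢
  exact hu.imp (fun h => hU u h v huv) (fun h => hW u h v huv)

theorem Up.sdiff {r : V → V → Prop} {U R : Finset V} (hU : Up r U) (hR : Dn r R) : Up r (U \ R) := by
  intro u hu v huv
  rw [mem_sdiff] at hu ⊢
  exact ⟨hU u hu.1 v huv, fun h => hu.2 (hR v h u huv)⟩

/-- the number of entering arcs by heads and tails -/
theorem card_ent_add {r : V → V → Prop} {tl hd : A → V} {S : Finset A} {U : Finset V}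
    (hS : ∀ e ∈ S, r (tl e) (hd e)) (hU : Up r U) :
    (ent tl hd S U).card + (S.filter fun e => tl e ∈ U).card = (S.filter fun e => hd e ∈ U).card := by
  rw [ent, card_filter, card_filter, card_filter, ← sum_add_distrib]
  refine sum_congr rfl fun e he => ?_
  by_cases h1 : tl e ∈ U
  · have h2 : hd e ∈ U := hU _ h1 _ (hS e he)
    simp [h1, h2]
  · by_cases h2 : hd e ∈ U <;> simp [h1, h2]

/-- modularity -/
theorem ent_modular {r : V → V → Prop} {tl hd : A → V} {S : Finset A} {U W : Finset V}
    (hS : ∀ e ∈ S, r (tl e) (hd e)) (hU : Up r U) (hW : Up r W) :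
    (ent tl hd S U).card + (ent tl hd S W).card =
      (ent tl hd S (U ∩ W)).card + (ent tl hd S (U ∪ W)).card := by
  simp only [ent, card_filter]
  rw [← sum_add_distrib, ← sum_add_distrib]
  refine sum_congr rfl fun e he => ?_
  have h1 : tl e ∈ U → hd e ∈ U := fun h => hU _ h _ (hS e he)
  have h2 : tl e ∈ W → hd e ∈ W := fun h => hW _ h _ (hS e he)
  by_cases a : tl e ∈ U <;> by_cases b : tl e ∈ W <;> by_cases c : hd e ∈ U <;>
    by_cases d : hd e ∈ W <;> simp_all

theorem ent_mono {tl hd : A → V} {S T : Finset A} (h : S ⊆ T) (U : Finset V) :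
    ent tl hd S U ⊆ ent tl hd T U := filter_subset_filter _ h

end Wood2
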